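import Pool.Agent.Helper8.KV.LRed

/-!
The Fino–Vezzoni conjecture on compact locally homogeneous complex manifolds.
-/

open Module Manifold ContDiff MeasureTheory

set_option linter.unusedSectionVars false

namespace Pool.Agent.Helper8.KV

open Pool.Agent.Helper77

variable {E : Type*} [NormedAddCommGroup E] [NormedSpace ℝ E] [FiniteDimensional ℝ E]
variable {G : Type*} [TopologicalSpace G] [ChartedSpace E G] [Group G] [LieGroup 𝓘(ℝ, E) ∞ G]
variable {Γ : Subgroup G}
variable {k : LieSubalgebra ℝ (LH.LieAlg E G)} {m : Submodule ℝ (LH.LieAlg E G)}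
variable {h : IsCompl m k.toSubmodule} {J : LH.LieAlg E G →ₗ[ℝ] LH.LieAlg E G}
variable {g : G ⧸ Γ → LinearMap.BilinForm ℝ (LH.LieAlg E G)}

/-- the horizontal part of a metric -/
noncomputable def gV (h : IsCompl m k.toSubmodule)
    (g : G ⧸ Γ → LinearMap.BilinForm ℝ (LH.LieAlg E G)) (x : G ⧸ Γ) :
    LinearMap.BilinForm ℝ (Hor h) := (g x).compl₁₂ (inc h) (inc h)

theorem gV_apply (x : G ⧸ Γ) (v w : Hor h) : gV h g x v w = g x (inc h v) (inc h w) := rfl

theorem omega_gV (hg : IsBasicMetric k J g) (x : G ⧸ Γ) (v w : Hor h) :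
    LieForms.omega (horJ h J) (gV h g x) v w = g x (J (inc h v)) (inc h w) := by
  unfold LieForms.omega
  rw [gV_apply, horJ_apply, ← g_left hg]

theorem g_J_left (hJ : IsInvariantComplexStructure k J) (hg : IsBasicMetric k J g) (x : G ⧸ Γ)
    (a w : LH.LieAlg E G) : g x (J a) w = g x (J (inc h (pr h a))) w := by
  conv_lhs => rw [← decomp h a, map_add]
  exact g_add_left hg _ _ _ (hJ.map_mem _ (prk_mem h a))

theorem omega_pr (h : IsCompl m k.toSubmodule) (hJ : IsInvariantComplexStructure k J)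
    (hg : IsBasicMetric k J g) (y : G ⧸ Γ)
    (a b : LH.LieAlg E G) : Helper77.LieForms.omega J (g y) a b =
      Helper77.LieForms.omega J (g y) (inc h (pr h a)) (inc h (pr h b)) := by
  unfold Helper77.LieForms.omega
  rw [g_right hg (h := h), g_J_left hJ hg (h := h)]

theorem gV_smoothMetric (hg : IsBasicMetric k J g) : IsSmoothMetric E (horJ h J) (gV h g) := by
  refine ⟨fun v w => hg.smooth _ _, fun x => ⟨fun v w => hg.symm _ _ _, fun v hv => ?_,
    fun v w => ?_⟩⟩
  · refine hg.pos x _ fun hk => hv ?_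
    rw [← pr_inc h v]
    exact pr_mem h hk
  · rw [gV_apply, gV_apply, horJ_apply, horJ_apply, ← g_left hg, ← g_right hg, hg.hermitian]

theorem gV_balanced (hJ : IsInvariantComplexStructure k J) (hg : IsBasicMetric k J g)
    (hb : BasicBalanced k J g) : Balanced (inc h) (horJ h J) (gV h g) := by
  intro n hn x v
  have hdim : finrank ℝ (LH.LieAlg E G) = finrank ℝ k + 2 * (n + 2) := by
    have h1 := Submodule.finrank_add_eq_of_isCompl h
    have h2 : finrank ℝ m = 2 * (n + 2) := hn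
    have h3 : finrank ℝ k = finrank ℝ k.toSubmodule := rfl
    omega
  have h1 := hb n hdim x fun l => inc h (v l)
  have hβ := fun y => omega_pr (J := J) (g := g) h hJ hg y
  rw [extD_hor (h := h)] at h1
  · rw [← h1]
    congr 1
    funext y w
    refine Eq.trans ?_ (wedgePow_inc (h := h) (Helper77.LieForms.omega J (g y)) (n + 1) w).symm
    congr 1
    funext a b
    exact omega_gV hg y a b
  · intro y a t
    refine (wedgePow_pr (h := h) (hβ y) (n + 1) _).trans
      (Eq.trans ?_ (wedgePow_pr (h := h) (hβ y) (n + 1) _).symm)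
    congr 1
    funext l
    refine Fin.cases ?_ (fun l => ?_) l
    · simp [pr_inc]
    · simp

/-- the exterior derivative of the fundamental form on horizontal vectors -/
theorem extD_fund_hor (hJ : IsInvariantComplexStructure k J) (hg : IsBasicMetric k J g)
    (x : G ⧸ Γ) (v : Fin 3 → Hor h) :
    LH.extD (k := 1) (LH.fund J g) x (fun l => inc h (v l)) =
      extD (inc h) (k := 1) (fund (horJ h J) (gV h g)) x v := by
  rw [extD_hor (h := h)]
  · congr 1
    funext y w
    exact (omega_gV hg y (w 0) (w 1)).symm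
  · intro y a t
    unfold LH.fund
    refine (omega_pr h hJ hg y _ _).trans (Eq.trans ?_ (omega_pr h hJ hg y _ _).symm)
    have e1 : (Fin.cons a t : Fin (1 + 1) → LH.LieAlg E G) 1 = t 0 := rfl
    have e2 : (Fin.cons (inc h (pr h a)) t : Fin (1 + 1) → LH.LieAlg E G) 1 = t 0 := rfl
    rw [e1, e2, Fin.cons_zero, Fin.cons_zero, pr_inc]

theorem gV_pluriclosed (hJ : IsInvariantComplexStructure k J) (hg : IsBasicMetric k J g)
    (hp : LH.Pluriclosed J g) : Pluriclosed (inc h) (horJ h J) (gV h g) := by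
  intro x v
  have h1 := hp x fun l => inc h (v l)
  rw [extD_hor (h := h)] at h1
  · rw [← h1]
    congr 1
    funext y w
    rw [← extD_fund_hor hJ hg, extD_fund, extD_fund]
    conv_rhs => rw [T_congr hJ hg (h := h)]
    simp only [pr_J hJ, pr_inc]
  · intro y a t
    rw [extD_fund, extD_fund, T_congr hJ hg (h := h)]
    conv_rhs => rw [T_congr hJ hg (h := h)]
    congr 1
    · congr 1
      simp only [Fin.cons_zero, pr_J hJ, pr_inc]

/-- the basic metric defined by an invariant horizontal metric -/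
noncomputable def ext (h : IsCompl m k.toSubmodule) (g₃ : LinearMap.BilinForm ℝ (Hor h)) :
    LinearMap.BilinForm ℝ (LH.LieAlg E G) := g₃.compl₁₂ (pr h) (pr h)

theorem ext_apply (g₃ : LinearMap.BilinForm ℝ (Hor h)) (v w : LH.LieAlg E G) :
    ext h g₃ v w = g₃ (pr h v) (pr h w) := rfl

theorem ext_basic (hJ : IsInvariantComplexStructure k J) {g₃ : LinearMap.BilinForm ℝ (Hor h)}
    (h3 : LieForms.IsHermitianMetric (horJ h J) g₃) (hI : InvBil (isot h) g₃) :
    IsBasicMetric k J (fun _ : G ⧸ Γ => ext h g₃) where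
  smooth _ _ := LH.Smooth.const _
  symm _ v w := h3.1 _ _
  kernel _ c hc v := by
    rw [ext_apply, pr_mem h hc, map_zero, LinearMap.zero_apply]
  pos _ v hv := h3.2.1 _ fun h0 => hv (pr_eq_zero h h0)
  hermitian _ v w := by
    rw [ext_apply, ext_apply, pr_J hJ, pr_J hJ, h3.2.2]
  invariant c hc _ v w := by
    have h1 := hI ⟨c, hc⟩ (pr h v) (pr h w)
    rw [isot_pr, isot_pr] at h1
    rw [LH.deriv_const, ext_apply, ext_apply]
    exact h1.symm

theorem ext_kahler (hJ : IsInvariantComplexStructure k J) {g₃ : LinearMap.BilinForm ℝ (Hor h)}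
    (h3 : LieForms.IsHermitianMetric (horJ h J) g₃) (hI : InvBil (isot h) g₃)
    (hK : LieForms.IsKahler (horJ h J) g₃) : LH.Kahler J (fun _ : G ⧸ Γ => ext h g₃) := by
  intro x v
  have hg := ext_basic (Γ := Γ) hJ h3 hI
  have h1 := extD_fund_hor hJ hg x fun l => pr h (v l)
  rw [extD_fund, T_congr hJ hg (h := h), ← extD_fund x fun l => inc h (pr h (v l))]
  refine h1.trans ?_
  unfold extD
  have h2 : gV h (fun _ : G ⧸ Γ => ext h g₃) = fun _ => g₃ := by
    funext y
    ext v w
    rw [gV_apply, ext_apply, pr_inc, pr_inc]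
  rw [h2]
  have h4 : ∀ j : Fin (1 + 2), LH.deriv (inc h (pr h (v j))) (fun y : G ⧸ Γ =>
      fund (horJ h J) (fun _ : G ⧸ Γ => g₃) y fun l => pr h (v (j.succAbove l))) x = 0 := fun j =>
    LH.deriv_const _ _ x
  simp only [h4, mul_zero, Finset.sum_const_zero, zero_add]
  exact hK _

variable [CompactSpace (G ⧸ Γ)] [MeasurableSpace (G ⧸ Γ)] [BorelSpace (G ⧸ Γ)]
variable (μ : Measure (G ⧸ Γ)) [IsProbabilityMeasure μ] [SMulInvariantMeasure G (G ⧸ Γ) μ]

/-- **Fino–Vezzoni on compact locally homogeneous complex manifolds.** -/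
theorem exists_kahler_basic {g₁ g₂ : G ⧸ Γ → LinearMap.BilinForm ℝ (LH.LieAlg E G)}
    (hL : Helper77.LieForms.IsUnimodular (LH.LieAlg E G)) (hk : IsReductive k)
    (hJ : IsInvariantComplexStructure k J) (h₁ : IsBasicMetric k J g₁)
    (hb : BasicBalanced k J g₁) (h₂ : IsBasicMetric k J g₂) (hp : LH.Pluriclosed J g₂) :
    ∃ g₃ : LinearMap.BilinForm ℝ (LH.LieAlg E G),
      IsBasicMetric k J (fun _ : G ⧸ Γ => g₃) ∧ LH.Kahler J (fun _ : G ⧸ Γ => g₃) ∧
      ∃ α : Dual ℝ (LH.LieAlg E G), (∀ c ∈ k, α c = 0) ∧ (∀ c ∈ k, ∀ v, α ⁅c, v⁆ = 0) ∧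
        ∀ v w, Helper77.LieForms.omega J g₃ v w =
          (∫ x, Helper77.LieForms.omega J (g₂ x) v w ∂μ) +
            (1 / 2) * (α ⁅v, w⁆ + α ⁅J v, J w⁆) := by
  obtain ⟨m, h, hm⟩ := hk
  obtain ⟨g₃, h3, hI, hK, α, hα, hαe⟩ := exists_kahler_hor (i := inc h) μ
    (isModel (h := h) hm hJ) (curv_skew h) (hor_unimodular hm hL)
    (horJ_isComplexStructure hm hJ) k.toSubmodule.subtype (gV_smoothMetric h₁)
    (gV_balanced hJ h₁ hb) (gV_smoothMetric h₂) (gV_pluriclosed hJ h₂ hp)
    (fun c x v w => by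
      change g₂ x (inc h (isot h c v)) (inc h w) + g₂ x (inc h v) (inc h (isot h c w)) = _
      rw [inc_isot hm, inc_isot hm]
      exact (h₂.invariant c c.2 x _ _).symm)
  refine ⟨ext h g₃, ext_basic hJ h3 hI, ext_kahler hJ h3 hI hK, α ∘ₗ pr h, ?_, ?_, ?_⟩
  · intro c hc
    rw [LinearMap.comp_apply, pr_mem h hc, map_zero]
  · intro c hc v
    rw [LinearMap.comp_apply]
    exact (congrArg α (isot_pr ⟨c, hc⟩ v)).symm.trans (hα ⟨c, hc⟩ (pr h v))
  · intro v w
    have h1 := hαe (pr h v) (pr h w)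
    have e1 : Helper77.LieForms.omega J (ext h g₃) v w =
        LieForms.omega (horJ h J) g₃ (pr h v) (pr h w) := by
      unfold Helper77.LieForms.omega LieForms.omega
      rw [ext_apply, pr_J hJ]
    have e2 : ∀ x, LieForms.omega (horJ h J) (gV h g₂ x) (pr h v) (pr h w) =
        Helper77.LieForms.omega J (g₂ x) v w := by
      intro x
      rw [omega_gV h₂]
      exact (omega_pr h hJ h₂ x v w).symm
    have e3 : ∀ a b : LH.LieAlg E G, α ⁅pr h a, pr h b⁆ = (α ∘ₗ pr h) ⁅a, b⁆ := by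
      intro a b
      rw [LinearMap.comp_apply, bracket_def]
      conv_rhs => rw [← decomp h a, _root_.add_lie, map_add, map_add]
      have f1 : α (pr h ⁅(prk h a : LH.LieAlg E G), b⁆) = 0 := by
        rw [← isot_pr]
        exact hα _ _
      rw [f1, add_zero]
      conv_rhs => rw [← decomp h b, _root_.lie_add, map_add, map_add]
      have f2 : α (pr h ⁅inc h (pr h a), (prk h b : LH.LieAlg E G)⁆) = 0 := by
        rw [← _root_.lie_skew, map_neg, map_neg, ← isot_pr, hα, neg_zero]
      rw [f2, add_zero]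
    rw [e1, h1, ← pr_J hJ, ← pr_J hJ, e3, e3]
    simp only [e2]

end Pool.Agent.Helper8.KV
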