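import Pool.Agent.Helper8.KV.Bal

/-!
The `(1,1)`-part of an exact form is pluriclosed.
-/

open Module

set_option linter.unusedSectionVars false

namespace Pool.Agent.Helper8.KV

variable {L : Type*} [AddCommGroup L] [Module ℝ L] [SkewAlg L] [FiniteDimensional ℝ L]
variable {J : L →ₗ[ℝ] L}

/-- the symmetric form attached to a one-form -/
noncomputable def sForm (J : L →ₗ[ℝ] L) : Dual ℝ L →ₗ[ℝ] LinearMap.BilinForm ℝ L where
  toFun α := (1 / 2 : ℝ) • ((adL.compl₂ J).compr₂ α + ((adL.compl₂ J).compr₂ α).flip)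
  map_add' α β := by
    ext x y
    simp only [LinearMap.smul_apply, LinearMap.add_apply, LinearMap.compr₂_apply,
      LinearMap.compl₂_apply, LinearMap.flip_apply, smul_eq_mul]
    ring
  map_smul' r α := by
    ext x y
    simp only [LinearMap.smul_apply, LinearMap.add_apply, LinearMap.compr₂_apply,
      LinearMap.compl₂_apply, LinearMap.flip_apply, smul_eq_mul, RingHom.id_apply]
    ring

theorem sForm_apply (α : Dual ℝ L) (x y : L) :
    sForm J α x y = (1 / 2) * (α ⁅x, J y⁆ + α ⁅y, J x⁆) := rfl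

theorem sForm_symInv (hJ : ∀ x, J (J x) = -x) (α : Dual ℝ L) : SymInv J (sForm J α) := by
  constructor
  · intro x y
    rw [sForm_apply, sForm_apply, add_comm]
  · intro x y
    rw [sForm_apply, sForm_apply, hJ, hJ, lie_neg, lie_neg, ← lie_skew y (J x),
      ← lie_skew x (J y)]
    simp only [map_neg]
    ring

/-- auxiliary two-form -/
noncomputable def gForm (J : L →ₗ[ℝ] L) (α : Dual ℝ L) : LinearMap.BilinForm ℝ L :=
  (1 / 2 : ℝ) • ((adL.compl₂ J).compr₂ α + (adL ∘ₗ J).compr₂ α)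

theorem gForm_apply (α : Dual ℝ L) (x y : L) :
    gForm J α x y = (1 / 2) * (α ⁅x, J y⁆ + α ⁅J x, y⁆) := rfl

theorem gForm_skew (α : Dual ℝ L) (x y : L) : gForm J α x y = -gForm J α y x := by
  rw [gForm_apply, gForm_apply, ← lie_skew (J y) x, ← lie_skew y (J x)]
  simp only [map_neg]
  ring

/-- The infinitesimal model of a reductive homogeneous complex space `G / K`: `V` is the
complement of `k`, with the bracket `pr_V [x, y]`, the isotropy representation `ρ` and the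
`k`-part `Ω` of the bracket. -/
structure IsModel {k : Type*} [AddCommGroup k] [Module ℝ k] (ρ : k →ₗ[ℝ] L →ₗ[ℝ] L)
    (Ω : L → L → k) (J : L →ₗ[ℝ] L) : Prop where
  der : ∀ c x y, ρ c ⁅x, y⁆ = ⁅ρ c x, y⁆ + ⁅x, ρ c y⁆
  comm : ∀ c x, ρ c (J x) = J (ρ c x)
  jac : ∀ x y z, ⁅x, ⁅y, z⁆⁆ + ⁅y, ⁅z, x⁆⁆ + ⁅z, ⁅x, y⁆⁆ =
    ρ (Ω y z) x + ρ (Ω z x) y + ρ (Ω x y) z

variable {k : Type*} [AddCommGroup k] [Module ℝ k] {ρ : k →ₗ[ℝ] L →ₗ[ℝ] L} {Ω : L → L → k}

/-- one-forms invariant under the isotropy representation -/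
def invForms (ρ : k →ₗ[ℝ] L →ₗ[ℝ] L) : Submodule ℝ (Dual ℝ L) where
  carrier := {α | ∀ c x, α (ρ c x) = 0}
  zero_mem' := fun _ _ => rfl
  add_mem' := fun {a b} ha hb c x => by rw [LinearMap.add_apply, ha, hb, add_zero]
  smul_mem' := fun r a ha c x => by rw [LinearMap.smul_apply, ha, smul_zero]

/-- forms invariant under the isotropy representation -/
def InvBil (ρ : k →ₗ[ℝ] L →ₗ[ℝ] L) (g : LinearMap.BilinForm ℝ L) : Prop :=
  ∀ c x y, g (ρ c x) y + g x (ρ c y) = 0

theorem sForm_inv (hM : IsModel ρ Ω J) {α : Dual ℝ L} (hα : α ∈ invForms ρ) :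
    InvBil ρ (sForm J α) := by
  intro c x y
  rw [sForm_apply, sForm_apply]
  have h1 := hα c ⁅x, J y⁆
  have h2 := hα c ⁅y, J x⁆
  rw [hM.der, map_add, hM.comm] at h1 h2
  linarith

theorem gForm_inv (hM : IsModel ρ Ω J) {α : Dual ℝ L} (hα : α ∈ invForms ρ) :
    InvBil ρ (gForm J α) := by
  intro c x y
  rw [gForm_apply, gForm_apply]
  have h1 := hα c ⁅x, J y⁆
  have h2 := hα c ⁅J x, y⁆
  rw [hM.der, map_add, hM.comm] at h1 h2
  linarith

theorem jacobi_inv (hM : IsModel ρ Ω J) {α : Dual ℝ L} (hα : α ∈ invForms ρ) (x y z : L) :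
    α ⁅x, ⁅y, z⁆⁆ + α ⁅y, ⁅z, x⁆⁆ + α ⁅z, ⁅x, y⁆⁆ = 0 := by
  rw [← map_add, ← map_add, hM.jac, map_add, map_add, hα, hα, hα]
  simp

theorem cForm_sForm (hM : IsModel ρ Ω J) (hJ : IsComplexStructure J) {α : Dual ℝ L}
    (hα : α ∈ invForms ρ) (x y z : L) :
    cForm J (sForm J α) x y z =
      gForm J α z ⁅x, y⁆ + gForm J α x ⁅y, z⁆ + gForm J α y ⁅z, x⁆ := by
  have hN : ∀ x y, J ⁅J x, J y⁆ = J ⁅x, y⁆ - ⁅J x, y⁆ - ⁅x, J y⁆ := by
    intro x y
    rw [hJ.2, map_add, hJ.1]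
    abel
  have j1 := jacobi_inv hM hα (J x) (J y) (J z)
  have j2 := jacobi_inv hM hα z (J x) y
  have j3 := jacobi_inv hM hα z x (J y)
  have j4 := jacobi_inv hM hα (J z) x y
  unfold cForm
  simp only [sForm_apply, gForm_apply, hN, lie_sub, map_sub]
  rw [← lie_skew ⁅J x, J y⁆ (J z), ← lie_skew ⁅J y, J z⁆ (J x), ← lie_skew ⁅J z, J x⁆ (J y)]
  simp only [map_neg]
  linarith

theorem dcForm_sForm (hM : IsModel ρ Ω J) (hΩ : ∀ x y, Ω x y = -Ω y x)
    (hJ : IsComplexStructure J) {α : Dual ℝ L}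
    (hα : α ∈ invForms ρ) (x y z w : L) :
    dcForm J (sForm J α) x y z w = 0 := by
  unfold dcForm
  simp only [cForm_sForm hM hJ hα]
  have hinv := gForm_inv hM hα
  set γ := gForm J α with hγ
  have hs : ∀ u v, γ u v = -γ v u := gForm_skew α
  have e : ∀ v a b c : L, γ v ⁅⁅a, b⁆, c⁆ = -γ v ⁅c, ⁅a, b⁆⁆ := by
    intro v a b c
    rw [← lie_skew, map_neg]
  have f : ∀ v a b c : L, γ v ⁅c, ⁅a, b⁆⁆ = -γ v ⁅c, ⁅b, a⁆⁆ := by
    intro v a b c
    rw [← lie_skew a b, lie_neg, map_neg]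
  have jac : ∀ v a b c : L, γ v ⁅a, ⁅b, c⁆⁆ + γ v ⁅b, ⁅c, a⁆⁆ + γ v ⁅c, ⁅a, b⁆⁆ =
      γ v (ρ (Ω b c) a) + γ v (ρ (Ω c a) b) + γ v (ρ (Ω a b) c) := by
    intro v a b c
    have := congrArg (γ v) (hM.jac a b c)
    simpa only [map_add] using this
  have s1 := hs ⁅x, y⁆ ⁅z, w⁆
  have s2 := hs ⁅x, z⁆ ⁅y, w⁆
  have s3 := hs ⁅x, w⁆ ⁅y, z⁆
  -- the isotropy terms cancel
  have i : ∀ a b u v : L, γ v (ρ (Ω a b) u) = γ u (ρ (Ω a b) v) := by
    intro a b u v
    have h1 := hinv (Ω a b) u v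
    rw [hs (ρ (Ω a b) u) v] at h1
    linarith
  have k : ∀ a b u v : L, γ v (ρ (Ω a b) u) = -γ v (ρ (Ω b a) u) := by
    intro a b u v
    rw [hΩ a b, map_neg, LinearMap.neg_apply, map_neg]
  have t1 := jac w x y z
  have t2 := jac z x y w
  have t3 := jac y x z w
  have t4 := jac x y z w
  have i1 := i y z x w
  have i2 := i z x y w
  have i3 := i x y z w
  have i4 := i y w x z
  have i5 := i w x y z
  have i6 := i z w x y
  simp only [e]
  linarith [t1, t2, t3, t4, f w x z y, f z x w y, f z y w x,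
    f y x z w, f y x w z, f y z w x, f x y z w, f x y w z, f x z w y, f z x y w,
    k z x y w, k w x y z, k x z w y, k w x z y, k x w z y, k w y z x, k y w x z, k y w z x,
    k w y x z, k x w y z]

/-- the torsion is linear in the metric -/
theorem cForm_add (g h : LinearMap.BilinForm ℝ L) (x y z : L) :
    cForm J (g + h) x y z = cForm J g x y z + cForm J h x y z := by
  unfold cForm
  simp only [LinearMap.add_apply]
  ring

theorem dcForm_add (g h : LinearMap.BilinForm ℝ L) (x y z w : L) :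
    dcForm J (g + h) x y z w = dcForm J g x y z w + dcForm J h x y z w := by
  unfold dcForm
  simp only [cForm_add]
  ring

theorem sum_coord_comp {M : Type*} [AddCommGroup M] [Module ℝ M] {ι : Type*} [Fintype ι]
    (b : Basis ι ℝ L) (J : L →ₗ[ℝ] L) (B : Dual ℝ L →ₗ[ℝ] L →ₗ[ℝ] M) :
    ∑ i, B (J.dualMap (b.coord i)) (b i) = ∑ k, B (b.coord k) (J (b k)) := by
  have h1 : ∀ i, B (J.dualMap (b.coord i)) (b i) =
      ∑ k, (b.coord i) (J (b k)) • B (b.coord k) (b i) := by
    intro i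
    conv_lhs => rw [← sum_apply_smul_coord b (J.dualMap (b.coord i))]
    rw [map_sum, LinearMap.sum_apply]
    refine Finset.sum_congr rfl fun k _ => ?_
    rw [map_smul, LinearMap.smul_apply]
    rfl
  simp only [h1]
  rw [Finset.sum_comm]
  refine Finset.sum_congr rfl fun k _ => ?_
  exact sum_coord_smul b (B (b.coord k)) (J (b k))

theorem ceD_oneForm (α : Dual ℝ L) : ceD (oneForm α) = (-(1 / 2 : ℝ)) • ∑ i, ∑ j,
    α ⁅finBasis ℝ L i, finBasis ℝ L j⁆ •
      (oneForm ((finBasis ℝ L).coord i) * oneForm ((finBasis ℝ L).coord j)) := by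
  rw [ceD_eq]
  unfold ceDb
  congr 1
  refine Finset.sum_congr rfl fun i _ => Finset.sum_congr rfl fun j _ => ?_
  rw [intProd_oneForm, ← Algebra.commutes, ← Algebra.smul_def]

theorem pullJ_ceD_oneForm (α : Dual ℝ L) : pullJ J (ceD (oneForm α)) =
    (-(1 / 2 : ℝ)) • ∑ i, ∑ j, α ⁅J (finBasis ℝ L i), J (finBasis ℝ L j)⁆ •
      (oneForm ((finBasis ℝ L).coord i) * oneForm ((finBasis ℝ L).coord j)) := by
  set b := finBasis ℝ L
  rw [ceD_oneForm, map_smul, map_sum]
  congr 1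
  have h1 : ∀ i, pullJ J (∑ j, α ⁅b i, b j⁆ • (oneForm (b.coord i) * oneForm (b.coord j))) =
      ∑ j, α ⁅b i, J (b j)⁆ • (oneForm (J.dualMap (b.coord i)) * oneForm (b.coord j)) := by
    intro i
    rw [map_sum]
    have h2 := sum_coord_comp b J (M := Forms L)
      (LinearMap.mk₂ ℝ (fun (β : Dual ℝ L) (y : L) => α ⁅b i, y⁆ •
        (oneForm (J.dualMap (b.coord i)) * oneForm β))
        (fun β β' y => by rw [map_add, mul_add, smul_add])
        (fun r β y => by rw [map_smul, mul_smul_comm, smul_comm])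
        (fun β y y' => by rw [lie_add, map_add, add_smul])
        (fun r β y => by rw [lie_smul, map_smul, smul_assoc]))
    simp only [LinearMap.mk₂_apply] at h2
    rw [← h2]
    refine Finset.sum_congr rfl fun j _ => ?_
    rw [map_smul, map_mul, pullJ_oneForm, pullJ_oneForm]
  rw [Finset.sum_congr rfl fun i _ => h1 i]
  rw [Finset.sum_comm]
  conv_rhs => rw [Finset.sum_comm]
  refine Finset.sum_congr rfl fun j _ => ?_
  have h2 := sum_coord_comp b J (M := Forms L)
    (LinearMap.mk₂ ℝ (fun (β : Dual ℝ L) (x : L) => α ⁅x, J (b j)⁆ •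
      (oneForm β * oneForm (b.coord j)))
      (fun β β' y => by rw [map_add, add_mul, smul_add])
      (fun r β y => by rw [map_smul, smul_mul_assoc, smul_comm])
      (fun β y y' => by rw [add_lie, map_add, add_smul])
      (fun r β y => by rw [smul_lie, map_smul, smul_assoc]))
  simp only [LinearMap.mk₂_apply] at h2
  exact h2

/-- fundamental form of `sForm` -/
theorem fundForm_sForm (hJ : ∀ x, J (J x) = -x) (α : Dual ℝ L) :
    fundForm J (sForm J α) =
      (-(1 / 2 : ℝ)) • (ceD (oneForm α) + pullJ J (ceD (oneForm α))) := by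
  rw [pullJ_ceD_oneForm, ceD_oneForm]
  unfold fundForm
  set b := finBasis ℝ L
  rw [← smul_add, ← Finset.sum_add_distrib, smul_smul]
  have h1 : ∀ i, oneForm (b.coord i) * oneForm (sForm J α (J (b i))) =
      (1 / 2 : ℝ) • ∑ j, (α ⁅b i, b j⁆ + α ⁅J (b i), J (b j)⁆) •
        (oneForm (b.coord i) * oneForm (b.coord j)) := by
    intro i
    conv_lhs => rw [← sum_apply_smul_coord b (sForm J α (J (b i)))]
    rw [map_sum, Finset.mul_sum, Finset.smul_sum]
    refine Finset.sum_congr rfl fun j _ => ?_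
    rw [map_smul, mul_smul_comm, smul_smul]
    congr 1
    rw [sForm_apply, hJ, lie_neg, ← lie_skew (b j) (b i), neg_neg, add_comm]
  simp only [h1]
  rw [← Finset.smul_sum, smul_smul]
  norm_num
  refine Finset.sum_congr rfl fun i _ => ?_
  rw [← Finset.sum_add_distrib]
  refine Finset.sum_congr rfl fun j _ => ?_
  rw [add_smul]

theorem fundForm_add (g h : LinearMap.BilinForm ℝ L) :
    fundForm J (g + h) = fundForm J g + fundForm J h := by
  unfold fundForm
  rw [← smul_add, ← Finset.sum_add_distrib]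
  congr 1
  refine Finset.sum_congr rfl fun i _ => ?_
  rw [LinearMap.add_apply, map_add, mul_add]

end Pool.Agent.Helper8.KV
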