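import Mathlib

/-!
# Skew-symmetric algebras

Project KV (MP_24023e_gt).  The tangent space `V` of a reductive homogeneous space `G / K` is an
`ad K`-invariant complement of the Lie algebra of `K`; the bracket of `G`, followed by the
projection to `V`, is a skew-symmetric bilinear bracket on `V` which does not satisfy the Jacobi
identity.
-/

open Module

namespace Pool.Agent.Helper8.KV

/-- A real vector space with a skew-symmetric bilinear bracket (no Jacobi identity). -/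
class SkewAlg (V : Type*) [AddCommGroup V] [Module ℝ V] extends Bracket V V where
  add_lie' : ∀ x y z : V, ⁅x + y, z⁆ = ⁅x, z⁆ + ⁅y, z⁆
  smul_lie' : ∀ (r : ℝ) (x y : V), ⁅r • x, y⁆ = r • ⁅x, y⁆
  skew' : ∀ x y : V, -⁅y, x⁆ = ⁅x, y⁆

variable {V : Type*} [AddCommGroup V] [Module ℝ V] [SkewAlg V]

theorem lie_skew (x y : V) : -⁅y, x⁆ = ⁅x, y⁆ := SkewAlg.skew' x y

theorem add_lie (x y z : V) : ⁅x + y, z⁆ = ⁅x, z⁆ + ⁅y, z⁆ := SkewAlg.add_lie' x y z

theorem smul_lie (r : ℝ) (x y : V) : ⁅r • x, y⁆ = r • ⁅x, y⁆ := SkewAlg.smul_lie' r x y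

theorem lie_add (x y z : V) : ⁅x, y + z⁆ = ⁅x, y⁆ + ⁅x, z⁆ := by
  rw [← lie_skew x (y + z), add_lie, neg_add, lie_skew, lie_skew]

theorem lie_smul (r : ℝ) (x y : V) : ⁅x, r • y⁆ = r • ⁅x, y⁆ := by
  rw [← lie_skew x (r • y), smul_lie, ← smul_neg, lie_skew]

/-- the bracket as a bilinear map -/
def adL : V →ₗ[ℝ] V →ₗ[ℝ] V :=
  LinearMap.mk₂ ℝ (fun x y => ⁅x, y⁆) add_lie smul_lie lie_add lie_smul

@[simp] theorem adL_apply (x y : V) : adL x y = ⁅x, y⁆ := rfl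

theorem neg_lie (x y : V) : ⁅-x, y⁆ = -⁅x, y⁆ := by
  have := smul_lie (-1) x y
  simpa using this

theorem lie_neg (x y : V) : ⁅x, -y⁆ = -⁅x, y⁆ := by
  have := lie_smul (-1) x y
  simpa using this

theorem lie_sub (x y z : V) : ⁅x, y - z⁆ = ⁅x, y⁆ - ⁅x, z⁆ := by
  rw [sub_eq_add_neg, lie_add, lie_neg, sub_eq_add_neg]

theorem sub_lie (x y z : V) : ⁅x - y, z⁆ = ⁅x, z⁆ - ⁅y, z⁆ := by
  rw [sub_eq_add_neg, add_lie, neg_lie, sub_eq_add_neg]

end Pool.Agent.Helper8.KV
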