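import Pool.Agent.Helper77.LH.Aver
import Pool.Agent.Helper8.KV.Weight

/-!
Averaging horizontal differential forms.
-/

open Module Manifold ContDiff MeasureTheory Topology Filter

set_option linter.unusedSectionVars false

namespace Pool.Agent.Helper8.KV

open Pool.Agent.Helper77.LH

variable {E : Type*} [NormedAddCommGroup E] [NormedSpace ℝ E] [FiniteDimensional ℝ E]
variable {G : Type*} [TopologicalSpace G] [ChartedSpace E G] [Group G] [LieGroup 𝓘(ℝ, E) ∞ G]
variable {Γ : Subgroup G}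

variable {V : Type*} [AddCommGroup V] [Module ℝ V] [SkewAlg V] [FiniteDimensional ℝ V]

/-- The exterior derivative on horizontal tuples; `i` is the inclusion of the horizontal space. -/
noncomputable def extD (i : V →ₗ[ℝ] LieAlg E G) {k : ℕ} (W : G ⧸ Γ → (Fin (k + 1) → V) → ℝ)
    (x : G ⧸ Γ) (v : Fin (k + 2) → V) : ℝ :=
  ∑ j : Fin (k + 2), (-1) ^ j.val * deriv (i (v j)) (fun y => W y fun l => v (j.succAbove l)) x +
    LieForms.ceD (W x) v

variable (E) in
/-- A smooth Hermitian metric on the horizontal bundle. -/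
def IsSmoothMetric (J : V →ₗ[ℝ] V) (g : G ⧸ Γ → LinearMap.BilinForm ℝ V) : Prop :=
  (∀ v w, Smooth E fun x => g x v w) ∧ ∀ x, LieForms.IsHermitianMetric J (g x)

/-- The fundamental form. -/
noncomputable def fund (J : V →ₗ[ℝ] V)
    (g : G ⧸ Γ → LinearMap.BilinForm ℝ V) (x : G ⧸ Γ) (v : Fin 2 → V) : ℝ :=
  LieForms.omega J (g x) (v 0) (v 1)

/-- `d dᶜ ω = 0`. -/
def Pluriclosed (i : V →ₗ[ℝ] LieAlg E G) (J : V →ₗ[ℝ] V)
    (g : G ⧸ Γ → LinearMap.BilinForm ℝ V) : Prop :=
  ∀ x v, extD i (k := 2) (fun y w => extD i (k := 1) (fund J g) y fun j => J (w j)) x v = 0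

/-- `d (ω ^ (n - 1)) = 0`. -/
def Balanced (i : V →ₗ[ℝ] LieAlg E G) (J : V →ₗ[ℝ] V)
    (g : G ⧸ Γ → LinearMap.BilinForm ℝ V) : Prop :=
  ∀ m : ℕ, finrank ℝ V = 2 * (m + 2) →
    ∀ x v, extD i (k := 2 * m + 1) (fun y => LieForms.wedgePow (LieForms.omega J (g y)) (m + 1)) x v
      = 0

variable (E) in
/-- smooth families of `k`-forms -/
def SmoothForm {k : ℕ} (W : G ⧸ Γ → (Fin k → V) → ℝ) : Prop :=
  ∀ v, Smooth E fun x => W x v

theorem SmoothForm.ceD {k : ℕ} {W : G ⧸ Γ → (Fin (k + 1) → V) → ℝ}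
    (hW : SmoothForm E W) : SmoothForm E fun x => LieForms.ceD (W x) := by
  intro v
  unfold LieForms.ceD
  refine Smooth.sum _ fun i _ => Smooth.sum _ fun j _ => ?_
  split_ifs
  · exact (Smooth.const _).mul (hW _)
  · exact Smooth.const _

theorem SmoothForm.extD (i : V →ₗ[ℝ] LieAlg E G) {k : ℕ} {W : G ⧸ Γ → (Fin (k + 1) → V) → ℝ}
    (hW : SmoothForm E W) : SmoothForm E (extD i W) := by
  intro v
  unfold KV.extD
  refine Smooth.add (Smooth.sum _ fun i _ => (Smooth.const _).mul ?_) (hW.ceD v)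
  exact (hW _).deriv _

theorem SmoothForm.comp {k : ℕ} {W : G ⧸ Γ → (Fin k → V) → ℝ}
    (hW : SmoothForm E W) (J : V → V) :
    SmoothForm E fun x (v : Fin k → V) => W x fun i => J (v i) := fun v => hW _

variable [CompactSpace (G ⧸ Γ)] [MeasurableSpace (G ⧸ Γ)] [BorelSpace (G ⧸ Γ)]
variable (μ : Measure (G ⧸ Γ)) [IsProbabilityMeasure μ]

/-- the average of a family of forms -/
noncomputable def av {k : ℕ} (W : G ⧸ Γ → (Fin k → V) → ℝ) (v : Fin k → V) :
    ℝ := ∫ x, W x v ∂μ

theorem integral_ceD {k : ℕ} {W : G ⧸ Γ → (Fin (k + 1) → V) → ℝ} (hW : SmoothForm E W)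
    (v : Fin (k + 2) → V) : ∫ x, LieForms.ceD (W x) v ∂μ = LieForms.ceD (av μ W) v := by
  unfold LieForms.ceD
  rw [integral_finsetSum]
  · refine Finset.sum_congr rfl fun i _ => ?_
    rw [integral_finsetSum]
    · refine Finset.sum_congr rfl fun j _ => ?_
      split_ifs
      · rw [integral_const_mul]
        rfl
      · simp
    · intro j _
      split_ifs
      · exact ((hW _).integrable μ).const_mul _
      · exact integrable_const _
  · intro i _
    refine integrable_finsetSum _ fun j _ => ?_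
    split_ifs
    · exact ((hW _).integrable μ).const_mul _
    · exact integrable_const _

variable [SMulInvariantMeasure G (G ⧸ Γ) μ]

theorem integral_extD (i : V →ₗ[ℝ] LieAlg E G) {k : ℕ} {W : G ⧸ Γ → (Fin (k + 1) → V) → ℝ}
    (hW : SmoothForm E W) (v : Fin (k + 2) → V) :
    ∫ x, extD i W x v ∂μ = LieForms.ceD (av μ W) v := by
  unfold extD
  rw [integral_add, integral_ceD μ hW, integral_finsetSum]
  · have h1 : ∀ j : Fin (k + 2), ∫ x, (-1 : ℝ) ^ j.val *
        deriv (i (v j)) (fun y => W y fun l => v (j.succAbove l)) x ∂μ = 0 := by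
      intro j
      rw [integral_const_mul, integral_deriv μ (hW _), mul_zero]
    simp only [h1, Finset.sum_const_zero, zero_add]
  · intro j _
    exact (((hW _).deriv _).integrable μ).const_mul _
  · refine integrable_finsetSum _ fun j _ => ?_
    exact (((hW _).deriv _).integrable μ).const_mul _
  · exact (hW.ceD v).integrable μ

/-- the average of a closed form is closed -/
theorem ceD_av_eq_zero (i : V →ₗ[ℝ] LieAlg E G) {k : ℕ} {W : G ⧸ Γ → (Fin (k + 1) → V) → ℝ}
    (hW : SmoothForm E W)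
    (h0 : ∀ x v, extD i W x v = 0) (v : Fin (k + 2) → V) : LieForms.ceD (av μ W) v = 0 := by
  rw [← integral_extD μ i hW]
  simp [h0]

theorem smooth_wedgePow {β : G ⧸ Γ → V → V → ℝ}
    (hβ : ∀ a b, Smooth E fun x => β x a b) (m : ℕ) :
    SmoothForm E (k := 2 * m) fun x => LieForms.wedgePow (β x) m := by
  induction m with
  | zero => exact fun v => Smooth.const _
  | succ m ih =>
    intro y
    change Smooth E fun x => LieForms.wedge (β x) (LieForms.wedgePow (β x) m) y
    unfold LieForms.wedge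
    refine Smooth.sum _ fun i _ => Smooth.sum _ fun j _ => ?_
    split_ifs
    · exact (Smooth.const _).mul ((hβ _ _).mul (ih _))
    · exact Smooth.const _

end Pool.Agent.Helper8.KV
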