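import Pool.Agent.Helper8.KV.Fund

/-!
Balanced metrics on unimodular Lie algebras: the trace of the bracket vanishes.
-/

open Module

set_option linter.unusedSectionVars false

namespace Pool.Agent.Helper8.KV

variable {L : Type*} [AddCommGroup L] [Module ℝ L] [SkewAlg L] [FiniteDimensional ℝ L]
variable {J : L →ₗ[ℝ] L} {g : LinearMap.BilinForm ℝ L}

/-- orthonormal basis for a bilinear form -/
def IsON {ι : Type*} [DecidableEq ι] (g : LinearMap.BilinForm ℝ L) (u : Basis ι ℝ L) : Prop :=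
  ∀ i j, g (u i) (u j) = if i = j then 1 else 0

variable {ι : Type*} [Fintype ι] [DecidableEq ι] {u : Basis ι ℝ L}

theorem IsON.coord (hu : IsON g u) (i : ι) : u.coord i = g (u i) := by
  apply u.ext
  intro j
  rw [hu, Basis.coord_apply, Basis.repr_self, Finsupp.single_apply]
  simp only [eq_comm]

theorem fundForm_basis (J : L →ₗ[ℝ] L) (g : LinearMap.BilinForm ℝ L) (u : Basis ι ℝ L) :
    fundForm J g = (1 / 2 : ℝ) • ∑ i, oneForm (u.coord i) * oneForm (g (J (u i))) := by
  unfold fundForm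
  congr 1
  exact sum_coord_bilin (finBasis ℝ L) u
    ((LinearMap.mul ℝ (Forms L)).compl₁₂ oneForm (oneForm ∘ₗ g ∘ₗ J))

theorem fundForm_comm (J : L →ₗ[ℝ] L) (g : LinearMap.BilinForm ℝ L) (γ : Dual ℝ L) :
    oneForm γ * fundForm J g = fundForm J g * oneForm γ := by
  unfold fundForm
  rw [mul_smul_comm, smul_mul_assoc, Finset.mul_sum, Finset.sum_mul]
  congr 1
  refine Finset.sum_congr rfl fun i _ => ?_
  rw [← mul_assoc, oneForm_mul_comm γ, neg_mul, mul_assoc, oneForm_mul_comm γ, mul_neg, neg_neg,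
    mul_assoc]

theorem intProd_fundForm_mul (h : SymInv J g) (hJ : ∀ x, J (J x) = -x) (x : L) (η : Forms L) :
    intProd x (fundForm J g * η) = oneForm (g (J x)) * η + fundForm J g * intProd x η := by
  have h1 := intProd_fundForm h hJ x
  rw [← h1]
  unfold fundForm
  rw [smul_mul_assoc, map_smul, map_smul, smul_mul_assoc, smul_mul_assoc, ← smul_add,
    Finset.sum_mul, intProd_sum_apply, intProd_sum_apply, Finset.sum_mul, Finset.sum_mul,
    ← Finset.sum_add_distrib]
  congr 1
  refine Finset.sum_congr rfl fun i _ => ?_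
  rw [mul_assoc, intProd_oneForm_mul, intProd_oneForm_mul, intProd_oneForm_mul, intProd_oneForm]
  rw [sub_mul, smul_mul_assoc, mul_assoc, mul_sub, mul_smul_comm, mul_assoc,
    ← Algebra.smul_def]
  simp only [mul_smul_comm]
  abel

theorem intProd_fundForm_pow (h : SymInv J g) (hJ : ∀ x, J (J x) = -x) (x : L) (m : ℕ) :
    intProd x (fundForm J g ^ m) = (m : ℝ) • (oneForm (g (J x)) * fundForm J g ^ (m - 1)) := by
  induction m with
  | zero => simp
  | succ m ih =>
    rw [pow_succ', intProd_fundForm_mul h hJ, ih]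
    rcases m with _ | m
    · simp
    · rw [mul_smul_comm, ← mul_assoc, ← fundForm_comm, mul_assoc, Nat.add_sub_cancel,
        Nat.add_sub_cancel, ← pow_succ']
      push_cast
      module

theorem contr_pow (h : SymInv J g) (hJ : ∀ x, J (J x) = -x) (hu : IsON g u) (m : ℕ) :
    ∑ i, intProd (J (u i)) (intProd (u i) (fundForm J g ^ (m + 1))) =
      (((m : ℝ) + 1) * ((Fintype.card ι : ℝ) - 2 * m)) • fundForm J g ^ m := by
  have h1 : ∀ i, intProd (J (u i)) (intProd (u i) (fundForm J g ^ (m + 1))) =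
      ((m : ℝ) + 1) • (fundForm J g ^ m -
        (m : ℝ) • (oneForm (g (u i)) * oneForm (g (J (u i))) * fundForm J g ^ (m - 1))) := by
    intro i
    rw [intProd_fundForm_pow h hJ, Nat.add_sub_cancel, map_smul, intProd_oneForm_mul,
      intProd_fundForm_pow h hJ, h.2, hu]
    simp only [if_true, one_smul]
    push_cast
    rw [hJ, map_neg, map_neg, mul_smul_comm, ← mul_assoc, mul_neg, oneForm_mul_comm, neg_neg]
  simp only [h1]
  rw [← Finset.smul_sum, Finset.sum_sub_distrib, Finset.sum_const, ← Finset.smul_sum,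
    ← Finset.sum_mul, Finset.card_univ]
  have h2 : ∑ i, oneForm (g (u i)) * oneForm (g (J (u i))) = (2 : ℝ) • fundForm J g := by
    rw [fundForm_basis J g u, smul_smul]
    norm_num
    refine Finset.sum_congr rfl fun i _ => ?_
    rw [← hu.coord, Basis.coord]
  rw [h2]
  rcases m with _ | m
  · simp only [Nat.cast_zero, zero_smul, sub_zero, mul_zero, zero_add, one_smul, one_mul]
    rw [Nat.cast_smul_eq_nsmul]
  · rw [Nat.add_sub_cancel, smul_mul_assoc, ← pow_succ', ← Nat.cast_smul_eq_nsmul ℝ]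
    push_cast
    module

theorem fundForm_pow_ne_zero (h : SymInv J g) (hJ : ∀ x, J (J x) = -x) (hu : IsON g u) (m : ℕ)
    (hm : 2 * m ≤ Fintype.card ι) : fundForm J g ^ m ≠ 0 := by
  induction m with
  | zero => simp
  | succ m ih =>
    intro h0
    have h1 := contr_pow h hJ hu m
    rw [h0] at h1
    simp only [map_zero, Finset.sum_const_zero] at h1
    have h2 := (smul_eq_zero.mp h1.symm).resolve_right (ih (by omega))
    have h3 : (2 * ((m : ℝ) + 1)) ≤ Fintype.card ι := by
      exact_mod_cast hm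
    have h4 : (0 : ℝ) < (m : ℝ) + 1 := by positivity
    have h5 : (0 : ℝ) < (Fintype.card ι : ℝ) - 2 * m := by linarith
    exact (mul_pos h4 h5).ne' h2

/-- top-degree forms are annihilated by one-forms -/
theorem oneForm_mul_pow_eq_zero (J : L →ₗ[ℝ] L) (g : LinearMap.BilinForm ℝ L) (α : Dual ℝ L)
    (m : ℕ) (hm : finrank ℝ L ≤ 2 * m) : oneForm α * fundForm J g ^ m = 0 := by
  have h1 : ∀ β : Dual ℝ L, oneForm β ∈ ⋀[ℝ]^1 (Dual ℝ L) := by
    intro β
    change _ ∈ (LinearMap.range (ExteriorAlgebra.ι ℝ : Dual ℝ L →ₗ[ℝ] _)) ^ 1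
    rw [pow_one]
    exact ⟨β, rfl⟩
  have h2 : fundForm J g ∈ ⋀[ℝ]^2 (Dual ℝ L) := by
    unfold fundForm
    refine Submodule.smul_mem _ _ (Submodule.sum_mem _ fun i _ => ?_)
    exact SetLike.mul_mem_graded (h1 _) (h1 _)
  have h3 : fundForm J g ^ m ∈ ⋀[ℝ]^(m • 2) (Dual ℝ L) := SetLike.pow_mem_graded m h2
  have h4 : oneForm α * fundForm J g ^ m ∈ ⋀[ℝ]^(1 + m • 2) (Dual ℝ L) :=
    SetLike.mul_mem_graded (h1 α) h3
  have h5 : ⋀[ℝ]^(1 + m • 2) (Dual ℝ L) = ⊥ := by
    rw [← ExteriorAlgebra.ιMulti_span_fixedDegree, Submodule.span_eq_bot]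
    rintro _ ⟨v, rfl⟩
    apply AlternatingMap.map_linearDependent
    intro hli
    have h6 := hli.fintype_card_le_finrank
    rw [Fintype.card_fin, Subspace.dual_finrank_eq, smul_eq_mul] at h6
    omega
  rw [h5] at h4
  exact (Submodule.mem_bot ℝ).mp h4

section top

variable {κ : Type*} [Fintype κ] [DecidableEq κ] (b : Basis κ ℝ L) {vol : Forms L}

theorem oneForm_mul_intProd (hvol : ∀ α : Dual ℝ L, oneForm α * vol = 0) (α : Dual ℝ L) (x : L) :
    oneForm α * intProd x vol = α x • vol := by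
  have h1 := intProd_oneForm_mul x α vol
  rw [hvol, map_zero] at h1
  exact (sub_eq_zero.mp h1.symm).symm

theorem ceDb_top (hvol : ∀ α : Dual ℝ L, oneForm α * vol = 0) : ceDb b vol = 0 := by
  unfold ceDb
  rw [Finset.sum_eq_zero, smul_zero]
  intro i _
  refine Finset.sum_eq_zero fun j _ => ?_
  rw [mul_assoc, oneForm_mul_intProd hvol, mul_smul_comm, hvol, smul_zero]

theorem trace_ad_eq (x : L) : LinearMap.trace ℝ L (adL x) =
    ∑ j, b.coord j ⁅x, b j⁆ := by
  rw [LinearMap.trace_eq_matrix_trace ℝ b, Matrix.trace]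
  refine Finset.sum_congr rfl fun j _ => ?_
  rw [Matrix.diag_apply, LinearMap.toMatrix_apply]
  rfl

theorem lieDb_top (hL : IsUnimodular L) (hvol : ∀ α : Dual ℝ L, oneForm α * vol = 0) (x : L) :
    lieDb b x vol = 0 := by
  unfold lieDb
  have h1 : ∀ j, oneForm (b.coord j) * intProd ⁅x, b j⁆ vol = b.coord j ⁅x, b j⁆ • vol :=
    fun j => oneForm_mul_intProd hvol _ _
  simp only [h1]
  rw [← Finset.sum_smul, ← trace_ad_eq, hL x, zero_smul, neg_zero]

theorem ceDb_contr (hL : IsUnimodular L) (hvol : ∀ α : Dual ℝ L, oneForm α * vol = 0) (x : L) :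
    ceDb b (intProd x vol) = 0 := by
  have h1 := intProd_ceDb b x vol
  rw [ceDb_top b hvol, lieDb_top b hL hvol, map_zero, zero_sub] at h1
  exact neg_eq_zero.mp h1.symm

theorem ceDb_contr2 (hL : IsUnimodular L) (hvol : ∀ α : Dual ℝ L, oneForm α * vol = 0)
    (x y : L) : ceDb b (intProd y (intProd x vol)) = intProd ⁅y, x⁆ vol := by
  have h1 := intProd_ceDb b y (intProd x vol)
  rw [ceDb_contr b hL hvol, map_zero] at h1
  have h2 := intProd_lieDb b y x vol
  rw [lieDb_top b hL hvol, map_zero] at h2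
  rw [(sub_eq_zero.mp h1.symm).symm, (sub_eq_zero.mp h2.symm)]

end top

/-- On a unimodular Lie algebra, a balanced metric has `∑ [u_i, J u_i] = 0`. -/
theorem sum_lie_eq_zero_of_isBalanced (hL : IsUnimodular L) (hJ : ∀ x, J (J x) = -x)
    (h : SymInv J g) (hu : IsON g u) (heven : Even (finrank ℝ L)) (hb : IsBalanced J g) :
    ∑ i, ⁅u i, J (u i)⁆ = 0 := by
  have hcard : Fintype.card ι = finrank ℝ L := (Module.finrank_eq_card_basis u).symm
  obtain ⟨n, hn⟩ := heven
  rcases n with _ | n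
  · have hι : IsEmpty ι := by
      rw [← Fintype.card_eq_zero_iff, hcard, hn]
    exact Fintype.sum_empty _
  have hn2 : finrank ℝ L / 2 - 1 = n := by omega
  set vol : Forms L := fundForm J g ^ (n + 1) with hvoldef
  have hvol : ∀ α : Dual ℝ L, oneForm α * vol = 0 := fun α =>
    oneForm_mul_pow_eq_zero J g α (n + 1) (by omega)
  have hne : vol ≠ 0 := fundForm_pow_ne_zero h hJ hu (n + 1) (by omega)
  have h1 := contr_pow h hJ hu n
  have h2 : ceDb (finBasis ℝ L) (fundForm J g ^ n) = 0 := by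
    rw [← ceD_eq, ← hn2]; exact hb
  have hlin : ∀ (s : Finset ι) (f : ι → Forms L), ceDb (finBasis ℝ L) (∑ i ∈ s, f i) =
      ∑ i ∈ s, ceDb (finBasis ℝ L) (f i) := by
    intro s f
    simp only [← ceD_eq]
    exact map_sum _ _ _
  have h3 := congrArg (ceDb (finBasis ℝ L)) h1
  rw [hlin, ← ceD_eq (_ • _), map_smul, ceD_eq, h2, smul_zero] at h3
  have h4 : ∀ i, ceDb (finBasis ℝ L) (intProd (J (u i)) (intProd (u i) vol)) =
      intProd ⁅J (u i), u i⁆ vol := fun i => ceDb_contr2 _ hL hvol _ _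
  simp only [← hvoldef, h4] at h3
  rw [← intProd_sum] at h3
  have h5 : ∀ α : Dual ℝ L, α (∑ i, ⁅J (u i), u i⁆) = 0 := by
    intro α
    have h6 := oneForm_mul_intProd hvol α (∑ i, ⁅J (u i), u i⁆)
    rw [h3, mul_zero] at h6
    exact (smul_eq_zero.mp h6.symm).resolve_right hne
  have h7 : ∑ i, ⁅J (u i), u i⁆ = 0 := (Module.forall_dual_apply_eq_zero_iff ℝ _).mp h5
  rw [← neg_eq_zero, ← Finset.sum_neg_distrib, ← h7]
  exact Finset.sum_congr rfl fun i _ => lie_skew _ _

end Pool.Agent.Helper8.KV
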