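import Pool.Agent.Helper8.KV.Even
import Pool.Agent.Helper8.KV.TDefs

/-!
Comparison of tuple forms with the exterior algebra.
-/

open Module

set_option linter.unusedSectionVars false

namespace Pool.Agent.Helper8.KV

variable {L : Type*} [AddCommGroup L] [Module ℝ L] [SkewAlg L]

/-- evaluation of a form on a tuple -/
noncomputable def ev : (k : ℕ) → Forms L → (Fin k → L) → ℝ
  | 0, η, _ => ExteriorAlgebra.algebraMapInv η
  | k + 1, η, x => ev k (intProd (x 0) η) (Fin.tail x)

theorem ev_cons (k : ℕ) (η : Forms L) (a : L) (x : Fin k → L) :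
    ev (k + 1) η (Fin.cons a x) = ev k (intProd a η) x := by
  change ev k (intProd ((Fin.cons a x : Fin (k + 1) → L) 0) η)
    (Fin.tail (Fin.cons a x : Fin (k + 1) → L)) = _
  rw [Fin.cons_zero, Fin.tail_cons]

theorem ev_add (k : ℕ) (η θ : Forms L) (x : Fin k → L) :
    ev k (η + θ) x = ev k η x + ev k θ x := by
  induction k generalizing η θ with
  | zero => exact map_add _ _ _
  | succ k ih => 
    change ev k (intProd (x 0) (η + θ)) _ = _
    rw [map_add, ih]; rfl

theorem ev_smul (k : ℕ) (r : ℝ) (η : Forms L) (x : Fin k → L) :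
    ev k (r • η) x = r * ev k η x := by
  induction k generalizing η with
  | zero => exact map_smul (ExteriorAlgebra.algebraMapInv (R := ℝ) (M := Dual ℝ L)) r η
  | succ k ih => 
    change ev k (intProd (x 0) (r • η)) _ = _
    rw [map_smul, ih]; rfl

theorem ev_zero (k : ℕ) (x : Fin k → L) : ev k (0 : Forms L) x = 0 := by
  have := ev_smul k 0 (0 : Forms L) x
  simpa using this

theorem ev_neg (k : ℕ) (η : Forms L) (x : Fin k → L) : ev k (-η) x = -ev k η x := by
  have := ev_smul k (-1) η x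
  simpa using this

theorem ev_sub (k : ℕ) (η θ : Forms L) (x : Fin k → L) :
    ev k (η - θ) x = ev k η x - ev k θ x := by
  rw [sub_eq_add_neg, ev_add, ev_neg]; ring

theorem ev_sum (k : ℕ) {ι : Type*} (s : Finset ι) (f : ι → Forms L) (x : Fin k → L) :
    ev k (∑ i ∈ s, f i) x = ∑ i ∈ s, ev k (f i) x := by
  classical
  induction s using Finset.induction_on with
  | empty => simp [ev_zero]
  | insert a s ha ih => rw [Finset.sum_insert ha, Finset.sum_insert ha, ev_add, ih]

theorem ev_algebraMap (r : ℝ) (x : Fin 0 → L) : ev 0 (algebraMap ℝ (Forms L) r) x = r :=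
  ExteriorAlgebra.algebraMap_leftInverse _ r

theorem ev_zero_oneForm_mul (α : Dual ℝ L) (η : Forms L) (x : Fin 0 → L) :
    ev 0 (oneForm α * η) x = 0 := by
  change ExteriorAlgebra.algebraMapInv (oneForm α * η) = 0
  rw [map_mul]
  have : ExteriorAlgebra.algebraMapInv (oneForm α) = 0 := by
    unfold ExteriorAlgebra.algebraMapInv oneForm
    simp
  rw [this, zero_mul]

theorem ev_swap (k : ℕ) (η : Forms L) (a b : L) (x : Fin k → L) :
    ev (k + 2) η (Fin.cons a (Fin.cons b x)) = -ev (k + 2) η (Fin.cons b (Fin.cons a x)) := by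
  rw [ev_cons, ev_cons, ev_cons, ev_cons, intProd_comm, ev_neg]

theorem cons_comp_succ_succAbove {k : ℕ} (b : L) (z : Fin (k + 1) → L) (j : Fin (k + 1)) :
    (fun l => (Fin.cons b z : Fin (k + 2) → L) (j.succ.succAbove l)) =
      Fin.cons b (fun l => z (j.succAbove l)) := by
  funext l
  refine Fin.cases ?_ (fun l => ?_) l
  · simp
  · simp

theorem ev_move (k : ℕ) (η : Forms L) (v : L) (y : Fin (k + 1) → L) (j : Fin (k + 1)) :
    ev (k + 1) η (Fin.cons v (fun l => y (j.succAbove l))) =
      (-1) ^ j.val * ev (k + 1) η (Function.update y j v) := by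
  induction k generalizing η with
  | zero =>
    have hj : j = 0 := Fin.fin_one_eq_zero j
    subst hj
    simp only [Fin.val_zero, pow_zero, one_mul]
    congr 1
    funext l
    have hl : l = 0 := Fin.fin_one_eq_zero l
    subst hl
    simp
  | succ k ih =>
    refine Fin.cases ?_ (fun j => ?_) j
    · simp only [Fin.val_zero, pow_zero, one_mul]
      congr 1
      funext l
      refine Fin.cases ?_ (fun l => ?_) l
      · simp
      · simp
    · obtain ⟨b, z, rfl⟩ : ∃ b z, y = Fin.cons b z := ⟨y 0, Fin.tail y, (Fin.cons_self_tail y).symm⟩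
      rw [cons_comp_succ_succAbove, ev_swap, ev_cons, ih, ← Fin.cons_update, ev_cons,
        Fin.val_succ, pow_succ]
      ring

variable {ι : Type*} [Fintype ι] (b : Basis ι ℝ L)

theorem ev_zero_lieDb (a : L) (η : Forms L) (x : Fin 0 → L) : ev 0 (lieDb b a η) x = 0 := by
  unfold lieDb
  rw [ev_neg, ev_sum]
  simp only [ev_zero_oneForm_mul, Finset.sum_const_zero, neg_zero]

theorem ev_zero_ceDb (η : Forms L) (x : Fin 0 → L) : ev 0 (ceDb b η) x = 0 := by
  unfold ceDb
  rw [ev_smul, ev_sum]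
  simp only [ev_sum, mul_assoc, ev_zero_oneForm_mul, Finset.sum_const_zero, mul_zero]

theorem ev_lieDb (k : ℕ) (a : L) (η : Forms L) (y : Fin k → L) :
    ev k (lieDb b a η) y = -∑ j, ev k η (Function.update y j ⁅a, y j⁆) := by
  induction k generalizing η with
  | zero => rw [ev_zero_lieDb]; simp
  | succ k ih =>
    obtain ⟨c, z, rfl⟩ : ∃ c z, y = Fin.cons c z := ⟨y 0, Fin.tail y, (Fin.cons_self_tail y).symm⟩
    rw [ev_cons, intProd_lieDb, ev_sub, ih, Fin.sum_univ_succ]
    simp only [Fin.cons_zero, Fin.cons_succ, Fin.update_cons_zero, ← Fin.cons_update, ev_cons]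
    ring

theorem ev_one_ceDb (η : Forms L) (y : Fin 1 → L) : ev 1 (ceDb b η) y = 0 := by
  obtain ⟨c, z, rfl⟩ : ∃ c z, y = Fin.cons c z := ⟨y 0, Fin.tail y, (Fin.cons_self_tail y).symm⟩
  rw [ev_cons, intProd_ceDb, ev_sub, ev_zero_lieDb, ev_zero_ceDb, sub_zero]

theorem ceD_cons {k : ℕ} (η : (Fin (k + 1) → L) → ℝ) (a : L) (y : Fin (k + 1) → L) :
    LieForms.ceD η (Fin.cons a y) =
      -∑ j : Fin (k + 1), (-1) ^ j.val * η (Fin.cons ⁅a, y j⁆ fun l => y (j.succAbove l)) +
      ∑ i : Fin (k + 1), ∑ j : Fin (k + 1), if i.val + 1 ≤ j.val then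
        (-1) ^ (i.val + 1 + j.val + 1) * η (Fin.cons
          ⁅y i, (Fin.cons a y : Fin (k + 2) → L) (i.succ.succAbove j)⁆
          (LieForms.del (Fin.cons a y) i.succ j)) else 0 := by
  unfold LieForms.ceD
  rw [Fin.sum_univ_succ]
  congr 1
  rw [← Finset.sum_neg_distrib]
  refine Finset.sum_congr rfl fun j _ => ?_
  rw [if_pos (by simp)]
  unfold LieForms.del
  simp only [Fin.zero_succAbove, Fin.cons_zero, Fin.cons_succ, Fin.val_zero, zero_add]
  rw [pow_succ]
  ring

theorem ceD_cons_succ {k : ℕ} (η : (Fin (k + 2) → L) → ℝ) (a : L) (y : Fin (k + 2) → L) :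
    LieForms.ceD η (Fin.cons a y) =
      -∑ j : Fin (k + 2), (-1) ^ j.val * η (Fin.cons ⁅a, y j⁆ fun l => y (j.succAbove l)) +
      ∑ i : Fin (k + 2), ∑ j : Fin (k + 1), if i.val ≤ j.val then
        (-1) ^ (i.val + j.val + 1) * η (Fin.cons ⁅y i, y (i.succAbove j)⁆
          (Fin.cons a (LieForms.del y i j))) * (-1) ^ 2 else 0 := by
  rw [ceD_cons]
  congr 1
  refine Finset.sum_congr rfl fun i _ => ?_
  rw [Fin.sum_univ_succ]
  rw [if_neg (by simp), zero_add]
  refine Finset.sum_congr rfl fun j _ => ?_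
  simp only [Fin.val_succ, Nat.add_le_add_iff_right]
  split_ifs
  · have h1 : LieForms.del (Fin.cons a y : Fin (k + 3) → L) i.succ j.succ =
        Fin.cons a (LieForms.del y i j) := by
      funext l
      unfold LieForms.del
      refine Fin.cases ?_ (fun l => ?_) l
      · simp
      · simp
    rw [h1, Fin.succ_succAbove_succ, Fin.cons_succ]
    ring
  · rfl

theorem ev_ceDb (k : ℕ) (η : Forms L) (x : Fin (k + 2) → L) :
    ev (k + 2) (ceDb b η) x = LieForms.ceD (ev (k + 1) η) x := by
  induction k generalizing η with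
  | zero =>
    obtain ⟨a, y, rfl⟩ : ∃ c z, x = Fin.cons c z := ⟨x 0, Fin.tail x, (Fin.cons_self_tail x).symm⟩
    rw [ev_cons, intProd_ceDb, ev_sub, ev_one_ceDb, sub_zero, ev_lieDb, ceD_cons]
    have h1 : ∀ i j : Fin (0 + 1), ¬ (i.val + 1 ≤ j.val) := by
      intro i j; omega
    simp only [h1, if_false, Finset.sum_const_zero, add_zero]
    congr 1
    refine Finset.sum_congr rfl fun j _ => ?_
    rw [ev_move, ← mul_assoc, ← mul_pow]
    simp
  | succ k ih =>
    obtain ⟨a, y, rfl⟩ : ∃ c z, x = Fin.cons c z := ⟨x 0, Fin.tail x, (Fin.cons_self_tail x).symm⟩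
    rw [ev_cons, intProd_ceDb, ev_sub, ih, ev_lieDb, ceD_cons_succ, sub_eq_add_neg]
    congr 1
    · congr 1
      refine Finset.sum_congr rfl fun j _ => ?_
      rw [ev_move, ← mul_assoc, ← mul_pow]
      simp
    · unfold LieForms.ceD
      rw [← Finset.sum_neg_distrib]
      refine Finset.sum_congr rfl fun i _ => ?_
      rw [← Finset.sum_neg_distrib]
      refine Finset.sum_congr rfl fun j _ => ?_
      split_ifs
      · rw [ev_swap k η _ a, ev_cons (k + 1) η a]
        ring
      · simp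

/-- exterior product with a one-form on tuples -/
theorem ev_oneForm_mul (k : ℕ) (α : Dual ℝ L) (η : Forms L) (y : Fin (k + 1) → L) :
    ev (k + 1) (oneForm α * η) y =
      ∑ j : Fin (k + 1), (-1) ^ j.val * (α (y j) * ev k η fun l => y (j.succAbove l)) := by
  induction k generalizing η with
  | zero =>
    obtain ⟨a, z, rfl⟩ : ∃ c z, y = Fin.cons c z := ⟨y 0, Fin.tail y, (Fin.cons_self_tail y).symm⟩
    rw [ev_cons, intProd_oneForm_mul, ev_sub, ev_zero_oneForm_mul, ev_smul]
    simp only [Fin.sum_univ_succ]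
    simp
  | succ k ih =>
    obtain ⟨a, z, rfl⟩ : ∃ c z, y = Fin.cons c z := ⟨y 0, Fin.tail y, (Fin.cons_self_tail y).symm⟩
    rw [ev_cons, intProd_oneForm_mul, ev_sub, ev_smul, ih, sub_eq_add_neg]
    conv_rhs => rw [Fin.sum_univ_succ]
    congr 1
    · simp only [Fin.val_zero, pow_zero, one_mul, Fin.cons_zero, Fin.zero_succAbove, Fin.cons_succ]
    · rw [← Finset.sum_neg_distrib]
      refine Finset.sum_congr rfl fun j _ => ?_
      rw [cons_comp_succ_succAbove, ev_cons, Fin.cons_succ, Fin.val_succ, pow_succ]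
      ring

variable [FiniteDimensional ℝ L] {J : L →ₗ[ℝ] L} {g : LinearMap.BilinForm ℝ L}

theorem ev_fundForm_mul (h : SymInv J g) (hJ : ∀ x, J (J x) = -x) (k : ℕ) (η : Forms L)
    (x : Fin (k + 2) → L) :
    ev (k + 2) (fundForm J g * η) x = LieForms.wedge (LieForms.omega J g) (ev k η) x := by
  have hzero : ∀ (θ : Forms L) (x : Fin 0 → L), ev 0 (fundForm J g * θ) x = 0 := by
    intro θ x
    unfold fundForm
    rw [smul_mul_assoc, ev_smul, Finset.sum_mul, ev_sum]
    simp only [mul_assoc, ev_zero_oneForm_mul, Finset.sum_const_zero, mul_zero]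
  have hone : ∀ (θ : Forms L) (x : Fin 1 → L), ev 1 (fundForm J g * θ) x = 0 := by
    intro θ x
    obtain ⟨a, z, rfl⟩ : ∃ c z, x = Fin.cons c z := ⟨x 0, Fin.tail x, (Fin.cons_self_tail x).symm⟩
    rw [ev_cons, intProd_fundForm_mul h hJ, ev_add, hzero, ev_zero_oneForm_mul, add_zero]
  have hcons : ∀ (k : ℕ) (θ : (Fin k → L) → ℝ) (a : L) (y : Fin (k + 1) → L),
      LieForms.wedge (LieForms.omega J g) θ (Fin.cons a y) =
        ∑ j : Fin (k + 1), (-1) ^ j.val * (g (J a) (y j) * θ fun l => y (j.succAbove l)) +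
        ∑ i : Fin (k + 1), ∑ j : Fin (k + 1), if i.val + 1 ≤ j.val then
          (-1) ^ (i.val + 1 + j.val) * (LieForms.omega J g (y i)
            ((Fin.cons a y : Fin (k + 2) → L) (i.succ.succAbove j)) *
            θ (LieForms.del (Fin.cons a y) i.succ j)) else 0 := by
    intro k θ a y
    unfold LieForms.wedge
    rw [Fin.sum_univ_succ]
    congr 1
    refine Finset.sum_congr rfl fun j _ => ?_
    rw [if_pos (by simp)]
    unfold LieForms.del LieForms.omega
    simp only [Fin.zero_succAbove, Fin.cons_zero, Fin.cons_succ, Fin.val_zero, zero_add]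
  induction k generalizing η with
  | zero =>
    obtain ⟨a, y, rfl⟩ : ∃ c z, x = Fin.cons c z := ⟨x 0, Fin.tail x, (Fin.cons_self_tail x).symm⟩
    rw [ev_cons, intProd_fundForm_mul h hJ, ev_add, hone, add_zero, ev_oneForm_mul, hcons]
    have h1 : ∀ i j : Fin (0 + 1), ¬ (i.val + 1 ≤ j.val) := by
      intro i j; omega
    simp only [h1, if_false, Finset.sum_const_zero, add_zero]
  | succ k ih =>
    obtain ⟨a, y, rfl⟩ : ∃ c z, x = Fin.cons c z := ⟨x 0, Fin.tail x, (Fin.cons_self_tail x).symm⟩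
    rw [ev_cons, intProd_fundForm_mul h hJ, ev_add, ih, ev_oneForm_mul, hcons]
    congr 1
    unfold LieForms.wedge
    refine Finset.sum_congr rfl fun i _ => ?_
    rw [Fin.sum_univ_succ (n := k + 1)]
    rw [if_neg (by simp), zero_add]
    refine Finset.sum_congr rfl fun j _ => ?_
    simp only [Fin.val_succ, Nat.add_le_add_iff_right]
    split_ifs
    · have h1 : LieForms.del (Fin.cons a y : Fin (k + 3) → L) i.succ j.succ =
          Fin.cons a (LieForms.del y i j) := by
        funext l
        unfold LieForms.del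
        refine Fin.cases ?_ (fun l => ?_) l
        · simp
        · simp
      rw [h1, Fin.succ_succAbove_succ, Fin.cons_succ, ev_cons]
      have h2 : (-1 : ℝ) ^ (i.val + 1 + (j.val + 1)) = (-1) ^ (i.val + j.val) := by
        rw [show i.val + 1 + (j.val + 1) = i.val + j.val + 2 by ring, pow_add]
        norm_num
      rw [h2]
    · rfl

end Pool.Agent.Helper8.KV
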