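import Pool.Agent.Helper8.KV.Defs

/-!
Calculus of left-invariant forms.
-/

open Module

namespace Pool.Agent.Helper8.KV

variable {L : Type*} [AddCommGroup L] [Module ℝ L] [SkewAlg L]

theorem intProd_oneForm_mul (x : L) (α : Dual ℝ L) (η : Forms L) :
    intProd x (oneForm α * η) = α x • η - oneForm α * intProd x η :=
  CliffordAlgebra.contractLeft_ι_mul _ _ _

theorem intProd_oneForm (x : L) (α : Dual ℝ L) :
    intProd x (oneForm α) = algebraMap ℝ _ (α x) :=
  CliffordAlgebra.contractLeft_ι _ _ _

@[simp] theorem intProd_algebraMap (x : L) (r : ℝ) :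
    intProd x (algebraMap ℝ (Forms L) r) = 0 :=
  CliffordAlgebra.contractLeft_algebraMap _ _ _

@[simp] theorem intProd_one (x : L) : intProd x (1 : Forms L) = 0 :=
  CliffordAlgebra.contractLeft_one _ _

theorem intProd_comm (x y : L) (η : Forms L) :
    intProd x (intProd y η) = -intProd y (intProd x η) :=
  CliffordAlgebra.contractLeft_comm _ _ _

theorem intProd_add (x y : L) (η : Forms L) :
    intProd (x + y) η = intProd x η + intProd y η := by
  unfold intProd; rw [map_add, map_add, LinearMap.add_apply]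

theorem intProd_smul (r : ℝ) (x : L) (η : Forms L) :
    intProd (r • x) η = r • intProd x η := by
  unfold intProd; rw [map_smul, map_smul, LinearMap.smul_apply]

theorem intProd_neg (x : L) (η : Forms L) :
    intProd (-x) η = -intProd x η := by
  have := intProd_smul (-1) x η
  simpa using this

@[simp] theorem intProd_zero (η : Forms L) : intProd (0 : L) η = 0 := by
  have := intProd_smul 0 (0 : L) η
  simpa using this

/-- the contraction as a linear map in the vector -/
noncomputable def intProdL (η : Forms L) : L →ₗ[ℝ] Forms L where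
  toFun x := intProd x η
  map_add' x y := intProd_add x y η
  map_smul' r x := intProd_smul r x η

theorem intProd_sum {ι : Type*} (s : Finset ι) (f : ι → L) (η : Forms L) :
    intProd (∑ i ∈ s, f i) η = ∑ i ∈ s, intProd (f i) η :=
  map_sum (intProdL η) f s

theorem oneForm_mul_comm (α β : Dual ℝ L) :
    oneForm α * oneForm β = -(oneForm β * oneForm α) := by
  have := ExteriorAlgebra.ι_add_mul_swap (R := ℝ) α β
  exact eq_neg_of_add_eq_zero_left this

theorem oneForm_sq (α : Dual ℝ L) : oneForm α * oneForm α = 0 :=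
  ExteriorAlgebra.ι_sq_zero α

variable {ι : Type*} [Fintype ι] (b : Basis ι ℝ L)

theorem sum_coord_smul {M : Type*} [AddCommGroup M] [Module ℝ M] (F : L →ₗ[ℝ] M) (x : L) :
    ∑ i, b.coord i x • F (b i) = F x := by
  conv_rhs => rw [← b.sum_repr x]
  rw [map_sum]
  refine Finset.sum_congr rfl fun i _ => ?_
  rw [map_smul, Basis.coord_apply]

theorem sum_apply_smul_coord (α : Dual ℝ L) : ∑ i, α (b i) • b.coord i = α := by
  ext x
  simp only [LinearMap.sum_apply, LinearMap.smul_apply, smul_eq_mul]
  have := sum_coord_smul b α x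
  simp only [smul_eq_mul] at this
  rw [← this]
  exact Finset.sum_congr rfl fun i _ => mul_comm _ _

/-- Lie derivative of left-invariant forms -/
noncomputable def lieDb (x : L) (η : Forms L) : Forms L :=
  -∑ j, oneForm (b.coord j) * intProd ⁅x, b j⁆ η

/-- the differential, in an arbitrary basis -/
noncomputable def ceDb (η : Forms L) : Forms L :=
  (-(1 / 2 : ℝ)) • ∑ i, ∑ j, oneForm (b.coord i) * oneForm (b.coord j) * intProd ⁅b i, b j⁆ η

theorem intProd_sum_apply (x : L) {κ : Type*} (s : Finset κ) (f : κ → Forms L) :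
    intProd x (∑ i ∈ s, f i) = ∑ i ∈ s, intProd x (f i) := map_sum _ _ _

theorem intProd_lieDb (x y : L) (η : Forms L) :
    intProd y (lieDb b x η) = lieDb b x (intProd y η) - intProd ⁅x, y⁆ η := by
  unfold lieDb
  rw [map_neg, intProd_sum_apply]
  have h1 : ∀ j, intProd y (oneForm (b.coord j) * intProd ⁅x, b j⁆ η) =
      b.coord j y • intProd ⁅x, b j⁆ η + oneForm (b.coord j) * intProd ⁅x, b j⁆ (intProd y η) := by
    intro j
    rw [intProd_oneForm_mul, intProd_comm y, mul_neg, sub_neg_eq_add]
  simp only [h1, Finset.sum_add_distrib]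
  have h2 := sum_coord_smul b ((intProdL η) ∘ₗ (adL x)) y
  simp only [LinearMap.comp_apply] at h2
  change ∑ i, b.coord i y • intProd ⁅x, b i⁆ η = intProd ⁅x, y⁆ η at h2
  rw [h2]
  abel

theorem intProd_ceDb (x : L) (η : Forms L) :
    intProd x (ceDb b η) = lieDb b x η - ceDb b (intProd x η) := by
  unfold ceDb lieDb
  rw [map_smul, intProd_sum_apply]
  have h1 : ∀ i j, intProd x (oneForm (b.coord i) * oneForm (b.coord j) * intProd ⁅b i, b j⁆ η) =
      b.coord i x • (oneForm (b.coord j) * intProd ⁅b i, b j⁆ η) -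
      b.coord j x • (oneForm (b.coord i) * intProd ⁅b i, b j⁆ η) -
      oneForm (b.coord i) * oneForm (b.coord j) * intProd ⁅b i, b j⁆ (intProd x η) := by
    intro i j
    rw [mul_assoc, intProd_oneForm_mul, intProd_oneForm_mul, intProd_comm x]
    rw [mul_sub, mul_neg, mul_neg, mul_smul_comm, mul_assoc]
    abel
  simp only [intProd_sum_apply, h1, Finset.sum_sub_distrib]
  have h2 : ∑ i, ∑ j, b.coord i x • (oneForm (b.coord j) * intProd ⁅b i, b j⁆ η) =
      ∑ j, oneForm (b.coord j) * intProd ⁅x, b j⁆ η := by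
    rw [Finset.sum_comm]
    refine Finset.sum_congr rfl fun j _ => ?_
    have := sum_coord_smul b ((LinearMap.mulLeft ℝ (oneForm (b.coord j))) ∘ₗ (intProdL η) ∘ₗ
      (-(adL (b j)))) x
    simp only [LinearMap.comp_apply, LinearMap.neg_apply, adL_apply,
      lie_skew] at this
    exact this
  have h3 : ∑ i, ∑ j, b.coord j x • (oneForm (b.coord i) * intProd ⁅b i, b j⁆ η) =
      -∑ j, oneForm (b.coord j) * intProd ⁅x, b j⁆ η := by
    rw [← Finset.sum_neg_distrib]
    refine Finset.sum_congr rfl fun i _ => ?_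
    have := sum_coord_smul b ((LinearMap.mulLeft ℝ (oneForm (b.coord i))) ∘ₗ (intProdL η) ∘ₗ
      ((adL (b i)))) x
    simp only [LinearMap.comp_apply, adL_apply] at this
    refine this.trans ?_
    change oneForm (b.coord i) * intProd ⁅b i, x⁆ η = -(oneForm (b.coord i) * intProd ⁅x, b i⁆ η)
    rw [← lie_skew x (b i), intProd_neg, mul_neg, neg_neg]
  rw [h2, h3]
  module

theorem ceD_eq [FiniteDimensional ℝ L] (η : Forms L) : ceD η = ceDb (finBasis ℝ L) η := by
  unfold ceD ceDb
  simp only [LinearMap.smul_apply, LinearMap.sum_apply, LinearMap.comp_apply,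
    LinearMap.mulLeft_apply]

end Pool.Agent.Helper8.KV
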