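import Pool.Agent.Helper8.KV.Alg

/-!
# Left-invariant Hermitian structures on Lie algebras

Left-invariant differential forms on a Lie group with Lie algebra `L` are the elements of the
exterior algebra of the dual of `L`; the exterior derivative is the Chevalley–Eilenberg
differential.
-/

open Module

namespace Pool.Agent.Helper8.KV

variable (L : Type*) [AddCommGroup L] [Module ℝ L] [SkewAlg L]

/-- The exterior algebra `Λ L*` of left-invariant differential forms. -/
abbrev Forms := ExteriorAlgebra ℝ (Dual ℝ L)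

variable {L}

/-- A `1`-form, as an element of `Λ L*`. -/
noncomputable def oneForm : Dual ℝ L →ₗ[ℝ] Forms L := ExteriorAlgebra.ι ℝ

/-- The interior product (contraction in the first slot) with the vector `x`. -/
noncomputable def intProd (x : L) : Forms L →ₗ[ℝ] Forms L :=
  CliffordAlgebra.contractLeft (Dual.eval ℝ L x)

/-- The Chevalley–Eilenberg differential
`d η = - 1/2 ∑ i j, b^i ∧ b^j ∧ ι_{[b_i, b_j]} η`, where `b` is a basis of `L` with dual basis
`b^i`. -/
noncomputable def ceD [FiniteDimensional ℝ L] : Forms L →ₗ[ℝ] Forms L :=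
  (-(1 / 2 : ℝ)) • ∑ i, ∑ j,
    (LinearMap.mulLeft ℝ (oneForm ((finBasis ℝ L).coord i) * oneForm ((finBasis ℝ L).coord j))) ∘ₗ
      intProd ⁅finBasis ℝ L i, finBasis ℝ L j⁆

/-- The action of an endomorphism `J` of `L` on forms: `(J* η)(x, y, …) = η (J x, J y, …)`. -/
noncomputable def pullJ (J : L →ₗ[ℝ] L) : Forms L →ₐ[ℝ] Forms L :=
  ExteriorAlgebra.map J.dualMap

/-- `J` is an integrable (left-invariant) complex structure. -/
def IsComplexStructure (J : L →ₗ[ℝ] L) : Prop :=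
  (∀ x, J (J x) = -x) ∧ ∀ x y, ⁅J x, J y⁆ = ⁅x, y⁆ + J (⁅J x, y⁆ + ⁅x, J y⁆)

/-- `g` is a (left-invariant) Hermitian metric: a `J`-invariant inner product. -/
def IsHermitianMetric (J : L →ₗ[ℝ] L) (g : LinearMap.BilinForm ℝ L) : Prop :=
  (∀ x y, g x y = g y x) ∧ (∀ x, x ≠ 0 → 0 < g x x) ∧ ∀ x y, g (J x) (J y) = g x y

/-- The fundamental `2`-form `ω(x, y) = g(J x, y)`, i.e.
`ω = 1/2 ∑ i, b^i ∧ ω(b_i, ·)`. -/
noncomputable def fundForm [FiniteDimensional ℝ L] (J : L →ₗ[ℝ] L) (g : LinearMap.BilinForm ℝ L) :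
    Forms L :=
  (1 / 2 : ℝ) • ∑ i, oneForm ((finBasis ℝ L).coord i) * oneForm (g (J (finBasis ℝ L i)))

variable [FiniteDimensional ℝ L]

/-- The metric `g` is Kähler: `dω = 0`. -/
def IsKahler (J : L →ₗ[ℝ] L) (g : LinearMap.BilinForm ℝ L) : Prop :=
  ceD (fundForm J g) = 0

/-- The metric `g` is pluriclosed (SKT): `d dᶜ ω = 0`, where `dᶜ ω = ± J* d ω`. -/
def IsPluriclosed (J : L →ₗ[ℝ] L) (g : LinearMap.BilinForm ℝ L) : Prop :=
  ceD (pullJ J (ceD (fundForm J g))) = 0

/-- The metric `g` is balanced: `d (ω ^ (n - 1)) = 0`, where `2 n` is the dimension of `L`. -/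
def IsBalanced (J : L →ₗ[ℝ] L) (g : LinearMap.BilinForm ℝ L) : Prop :=
  ceD (fundForm J g ^ (finrank ℝ L / 2 - 1)) = 0

/-- The Lie algebra is unimodular: every `ad x` has trace zero. -/
def IsUnimodular (L : Type*) [AddCommGroup L] [Module ℝ L] [SkewAlg L] : Prop :=
  ∀ x : L, LinearMap.trace ℝ L (adL x) = 0

end Pool.Agent.Helper8.KV
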