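import Pool.Agent.Helper8.KV.Opt

/-!
The Fino–Vezzoni conjecture for left-invariant structures.
-/

open Module

set_option linter.unusedSectionVars false

namespace Pool.Agent.Helper8.KV

variable {L : Type*} [AddCommGroup L] [Module ℝ L] [SkewAlg L] [FiniteDimensional ℝ L]
variable {J : L →ₗ[ℝ] L}

theorem even_finrank (hJ : ∀ x, J (J x) = -x) : Even (finrank ℝ L) := by
  have h1 : J ∘ₗ J = (-1 : ℝ) • LinearMap.id := by
    ext x
    simp [hJ]
  have h2 := congrArg LinearMap.det h1
  rw [LinearMap.det_comp, LinearMap.det_smul, LinearMap.det_id, mul_one] at h2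
  rcases Nat.even_or_odd (finrank ℝ L) with h | h
  · exact h
  · exfalso
    rw [h.neg_one_pow] at h2
    nlinarith [mul_self_nonneg (LinearMap.det J)]

end Pool.Agent.Helper8.KV
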