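import Pool.Agent.Helper8.KV.Eval

/-!
The fundamental form and its derivatives.
-/

open Module

set_option linter.unusedSectionVars false

namespace Pool.Agent.Helper8.KV

variable {L : Type*} [AddCommGroup L] [Module ℝ L] [SkewAlg L] [FiniteDimensional ℝ L]

/-- symmetric and `J`-invariant bilinear forms -/
def SymInv (J : L →ₗ[ℝ] L) (g : LinearMap.BilinForm ℝ L) : Prop :=
  (∀ x y, g x y = g y x) ∧ ∀ x y, g (J x) (J y) = g x y

theorem IsHermitianMetric.symInv {J : L →ₗ[ℝ] L} {g : LinearMap.BilinForm ℝ L}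
    (h : IsHermitianMetric J g) : SymInv J g := ⟨h.1, h.2.2⟩

variable {J : L →ₗ[ℝ] L} {g : LinearMap.BilinForm ℝ L}

theorem SymInv.skew (h : SymInv J g) (hJ : ∀ x, J (J x) = -x) (x y : L) :
    g (J x) y = -g x (J y) := by
  have := h.2 x (J y)
  rw [hJ, map_neg] at this
  linarith

theorem intProd_fundForm (h : SymInv J g) (hJ : ∀ x, J (J x) = -x) (x : L) :
    intProd x (fundForm J g) = oneForm (g (J x)) := by
  unfold fundForm
  set b := finBasis ℝ L
  rw [map_smul, intProd_sum_apply]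
  have h1 : ∀ i, intProd x (oneForm (b.coord i) * oneForm (g (J (b i)))) =
      b.coord i x • oneForm (g (J (b i))) - (g (J (b i)) x) • oneForm (b.coord i) := by
    intro i
    rw [intProd_oneForm_mul, intProd_oneForm, ← Algebra.commutes, ← Algebra.smul_def]
  simp only [h1, Finset.sum_sub_distrib]
  have h2 := sum_coord_smul b (oneForm ∘ₗ g ∘ₗ J) x
  simp only [LinearMap.comp_apply] at h2
  have h3 : ∑ i, (g (J (b i)) x) • oneForm (b.coord i) = -oneForm (g (J x)) := by
    have h4 := sum_apply_smul_coord b (-(g (J x)))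
    rw [← map_neg, ← h4, map_sum]
    refine Finset.sum_congr rfl fun i _ => ?_
    rw [map_smul]
    congr 1
    rw [LinearMap.neg_apply, h.skew hJ, h.1 (J x)]
  rw [h2, h3, sub_neg_eq_add]
  module

theorem intProd_intProd_fundForm (h : SymInv J g) (hJ : ∀ x, J (J x) = -x) (x y : L) :
    intProd y (intProd x (fundForm J g)) = algebraMap ℝ (Forms L) (g (J x) y) := by
  rw [intProd_fundForm h hJ, intProd_oneForm]

/-- torsion three-form -/
def cForm (J : L →ₗ[ℝ] L) (g : LinearMap.BilinForm ℝ L) (x y z : L) : ℝ :=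
  g ⁅J x, J y⁆ z + g ⁅J y, J z⁆ x + g ⁅J z, J x⁆ y

/-- exterior derivative of the torsion three-form -/
def dcForm (J : L →ₗ[ℝ] L) (g : LinearMap.BilinForm ℝ L) (x y z w : L) : ℝ :=
  -cForm J g ⁅x, y⁆ z w + cForm J g ⁅x, z⁆ y w - cForm J g ⁅x, w⁆ y z
    - cForm J g ⁅y, z⁆ x w + cForm J g ⁅y, w⁆ x z - cForm J g ⁅z, w⁆ x y

theorem cForm_cyc (x y z : L) : cForm J g x y z = cForm J g y z x := by
  unfold cForm; ring

theorem cForm_swap (x y z : L) : cForm J g x y z = -cForm J g y x z := by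
  unfold cForm
  rw [← lie_skew (J y) (J x), ← lie_skew (J z) (J y), ← lie_skew (J x) (J z)]
  simp only [map_neg, LinearMap.neg_apply]
  ring

theorem eval_dω (h : SymInv J g) (hJ : ∀ x, J (J x) = -x) (x y z : L) :
    intProd z (intProd y (intProd x (ceD (fundForm J g)))) =
      algebraMap ℝ (Forms L) (-g (J ⁅x, y⁆) z - g (J ⁅y, z⁆) x - g (J ⁅z, x⁆) y) := by
  rw [ceD_eq, eval_ceDb_two _ (A := fun x y => g (J x) y)
    (intProd_intProd_fundForm h hJ)]
  congr 1
  have e1 : g (J y) ⁅x, z⁆ = g (J ⁅z, x⁆) y := by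
    rw [h.skew hJ, h.1 y, ← lie_skew x z, map_neg]; simp
  have e2 : g (J x) ⁅y, z⁆ = -g (J ⁅y, z⁆) x := by
    rw [h.skew hJ, h.1 x]
  rw [e1, e2]; ring

theorem eval_Jdω (h : SymInv J g) (hJ : ∀ x, J (J x) = -x) (x y z : L) :
    intProd z (intProd y (intProd x (pullJ J (ceD (fundForm J g))))) =
      algebraMap ℝ (Forms L) (-cForm J g x y z) := by
  rw [intProd_pullJ, intProd_pullJ, intProd_pullJ, eval_dω h hJ, AlgHom.commutes]
  congr 1
  rw [h.2, h.2, h.2]
  unfold cForm
  ring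

theorem eval_dJdω (h : SymInv J g) (hJ : ∀ x, J (J x) = -x) (x y z w : L) :
    intProd w (intProd z (intProd y (intProd x (ceD (pullJ J (ceD (fundForm J g))))))) =
      algebraMap ℝ (Forms L) (-dcForm J g x y z w) := by
  rw [ceD_eq (pullJ J (ceD (fundForm J g))), eval_ceDb_three _ (A := fun x y z => -cForm J g x y z)
    (eval_Jdω h hJ)]
  congr 1
  unfold dcForm
  have c1 : cForm J g y ⁅x, z⁆ w = -cForm J g ⁅x, z⁆ y w := cForm_swap _ _ _
  have c2 : cForm J g x ⁅y, z⁆ w = -cForm J g ⁅y, z⁆ x w := cForm_swap _ _ _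
  have c3 : cForm J g y z ⁅x, w⁆ = cForm J g ⁅x, w⁆ y z := (cForm_cyc _ _ _).symm
  have c4 : cForm J g x z ⁅y, w⁆ = cForm J g ⁅y, w⁆ x z := (cForm_cyc _ _ _).symm
  have c5 : cForm J g x y ⁅z, w⁆ = cForm J g ⁅z, w⁆ x y := (cForm_cyc _ _ _).symm
  rw [c1, c2, c3, c4, c5]
  ring

theorem dcForm_eq_zero_of_isPluriclosed (h : SymInv J g) (hJ : ∀ x, J (J x) = -x)
    (hp : IsPluriclosed J g) (x y z w : L) : dcForm J g x y z w = 0 := by
  have h1 := eval_dJdω h hJ x y z w
  rw [hp] at h1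
  simp only [map_zero] at h1
  have h2 : algebraMap ℝ (Forms L) 0 = algebraMap ℝ (Forms L) (-dcForm J g x y z w) := by
    rw [map_zero]; exact h1
  have := eq_of_intProd h2
  linarith

/-- the vanishing of the torsion implies that the metric is Kähler -/
theorem isKahler_of_cForm (h : SymInv J g) (hJ : ∀ x, J (J x) = -x)
    (hc : ∀ x y z, cForm J g x y z = 0) : IsKahler J g := by
  have hT : ∀ x y z, g (J ⁅x, y⁆) z + g (J ⁅y, z⁆) x + g (J ⁅z, x⁆) y = 0 := by
    intro x y z
    have h1 := hc (J x) (J y) (J z)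
    unfold cForm at h1
    simp only [hJ, neg_lie, lie_neg, neg_neg] at h1
    have e1 : ∀ u v, g (J u) v = -g u (J v) := h.skew hJ
    rw [e1, e1, e1]
    linarith
  unfold IsKahler
  rw [ceD_eq]
  set b := finBasis ℝ L
  unfold ceDb
  simp only [intProd_fundForm h hJ]
  have h1 : ∀ i j, oneForm (b.coord i) * oneForm (b.coord j) * oneForm (g (J ⁅b i, b j⁆)) =
      ∑ k, g (J ⁅b i, b j⁆) (b k) •
        (oneForm (b.coord i) * oneForm (b.coord j) * oneForm (b.coord k)) := by
    intro i j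
    conv_lhs => rw [← sum_apply_smul_coord b (g (J ⁅b i, b j⁆))]
    rw [map_sum, Finset.mul_sum]
    refine Finset.sum_congr rfl fun k _ => ?_
    rw [map_smul, mul_smul_comm]
  simp only [h1]
  set E : Fin (finrank ℝ L) → Fin (finrank ℝ L) → Fin (finrank ℝ L) → Forms L :=
    fun i j k => oneForm (b.coord i) * oneForm (b.coord j) * oneForm (b.coord k) with hE
  have hEc : ∀ i j k, E i j k = E j k i := by
    intro i j k
    simp only [hE]
    rw [mul_assoc (oneForm (b.coord j)) (oneForm (b.coord k)) (oneForm (b.coord i)),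
      oneForm_mul_comm (b.coord k) (b.coord i), mul_neg, ← mul_assoc,
      oneForm_mul_comm (b.coord j) (b.coord i), neg_mul, neg_neg]
  have hrot : ∀ F : Fin (finrank ℝ L) → Fin (finrank ℝ L) → Fin (finrank ℝ L) → Forms L,
      ∑ i, ∑ j, ∑ k, F i j k = ∑ i, ∑ j, ∑ k, F j k i := by
    intro F
    symm
    rw [Finset.sum_comm]
    refine Finset.sum_congr rfl fun j _ => ?_
    rw [Finset.sum_comm]
  set S : Forms L := ∑ i, ∑ j, ∑ k, g (J ⁅b i, b j⁆) (b k) • E i j k with hS
  have hS2 : S = ∑ i, ∑ j, ∑ k, g (J ⁅b j, b k⁆) (b i) • E i j k := by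
    rw [hS, hrot]
    refine Finset.sum_congr rfl fun i _ => Finset.sum_congr rfl fun j _ =>
      Finset.sum_congr rfl fun k _ => ?_
    rw [← hEc i j k]
  have hS3 : S = ∑ i, ∑ j, ∑ k, g (J ⁅b k, b i⁆) (b j) • E i j k := by
    rw [hS2, hrot]
    refine Finset.sum_congr rfl fun i _ => Finset.sum_congr rfl fun j _ =>
      Finset.sum_congr rfl fun k _ => ?_
    rw [← hEc i j k]
  have h3 : S + S + S = 0 := by
    conv_lhs => 
      lhs; lhs
      rw [hS]
    conv_lhs =>
      lhs; rhs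
      rw [hS2]
    conv_lhs =>
      rhs
      rw [hS3]
    simp only [← Finset.sum_add_distrib, ← add_smul]
    refine Finset.sum_eq_zero fun i _ => Finset.sum_eq_zero fun j _ =>
      Finset.sum_eq_zero fun k _ => ?_
    rw [hT, zero_smul]
  have h4 : S = 0 := by
    have h5 : (3 : ℝ) • S = 0 := by
      rw [← h3]; module
    exact (smul_eq_zero.mp h5).resolve_left (by norm_num)
  rw [h4, smul_zero]

end Pool.Agent.Helper8.KV
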