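import Pool.Agent.Helper77.LH.Main
import Pool.Agent.Helper8.KV.Aver

/-!
Averages of balanced and pluriclosed metrics on the horizontal bundle.
-/

open Module Manifold ContDiff MeasureTheory Topology Filter Matrix

set_option linter.unusedSectionVars false

namespace Pool.Agent.Helper8.KV

open Pool.Agent.Helper77.LH

variable {E : Type*} [NormedAddCommGroup E] [NormedSpace ℝ E] [FiniteDimensional ℝ E]
variable {G : Type*} [TopologicalSpace G] [ChartedSpace E G] [Group G] [LieGroup 𝓘(ℝ, E) ∞ G]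
variable {Γ : Subgroup G}
variable {V : Type*} [AddCommGroup V] [Module ℝ V] [SkewAlg V] [FiniteDimensional ℝ V]
variable {i : V →ₗ[ℝ] LieAlg E G}
variable [CompactSpace (G ⧸ Γ)] [MeasurableSpace (G ⧸ Γ)] [BorelSpace (G ⧸ Γ)]
variable (μ : Measure (G ⧸ Γ)) [IsProbabilityMeasure μ]

/-- the average of a metric -/
theorem exists_av {J : V →ₗ[ℝ] V}
    {g : G ⧸ Γ → LinearMap.BilinForm ℝ V} (hg : IsSmoothMetric E J g) :
    ∃ a : LinearMap.BilinForm ℝ V, (∀ v w, a v w = ∫ x, g x v w ∂μ) ∧
      LieForms.IsHermitianMetric J a := by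
  have hi : ∀ v w, Integrable (fun x => g x v w) μ := fun v w => (hg.1 v w).integrable μ
  let a : LinearMap.BilinForm ℝ V := LinearMap.mk₂ ℝ (fun v w => ∫ x, g x v w ∂μ)
    (fun v v' w => by
      simp only [map_add, LinearMap.add_apply]
      exact integral_add (hi _ _) (hi _ _))
    (fun r v w => by
      simp only [map_smul, LinearMap.smul_apply, smul_eq_mul]
      exact integral_const_mul _ _)
    (fun v w w' => by
      simp only [map_add]
      exact integral_add (hi _ _) (hi _ _))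
    (fun r v w => by
      simp only [map_smul, smul_eq_mul]
      exact integral_const_mul _ _)
  have ha : ∀ v w, a v w = ∫ x, g x v w ∂μ := fun v w => rfl
  refine ⟨a, ha, fun v w => ?_, fun v hv => ?_, fun v w => ?_⟩
  · rw [ha, ha]
    exact integral_congr_ae (Eventually.of_forall fun x => (hg.2 x).1 v w)
  · rw [ha]
    exact integral_pos_of_pos μ (hg.1 v v).continuous fun x => (hg.2 x).2.1 v hv
  · rw [ha, ha]
    exact integral_congr_ae (Eventually.of_forall fun x => (hg.2 x).2.2 v w)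

variable [SMulInvariantMeasure G (G ⧸ Γ) μ]

/-- the average of a pluriclosed metric is pluriclosed -/
theorem isPluriclosed_av {J : V →ₗ[ℝ] V}
    {g : G ⧸ Γ → LinearMap.BilinForm ℝ V} (hg : IsSmoothMetric E J g)
    (hp : Pluriclosed i J g) {a : LinearMap.BilinForm ℝ V}
    (ha : ∀ v w, a v w = ∫ x, g x v w ∂μ) : LieForms.IsPluriclosed J a := by
  have hs : SmoothForm E (fund J g) := fun v => hg.1 _ _
  have h1 : av μ (fund J g) = fun v : Fin 2 → V => LieForms.omega J a (v 0) (v 1) := by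
    funext v
    unfold av fund LieForms.omega
    rw [ha]
  have h2 : av μ (fun y (w : Fin 3 → V) => extD i (k := 1) (fund J g) y fun i => J (w i)) =
      fun w : Fin 3 → V => LieForms.dTwo (LieForms.omega J a) fun i => J (w i) := by
    funext w
    unfold LieForms.dTwo
    rw [← h1, ← integral_extD μ i hs]
    rfl
  intro v
  rw [← h2]
  exact ceD_av_eq_zero μ i ((hs.extD i).comp J) hp v

/-- the derivative of the powers of the fundamental form -/
theorem integral_dpow {J : V →ₗ[ℝ] V}
    {g : G ⧸ Γ → LinearMap.BilinForm ℝ V} (hJ : ∀ x, J (J x) = -x)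
    (hg : IsSmoothMetric E J g) (hb : Balanced i J g) {n : ℕ}
    (hn : finrank ℝ V = 2 * (n + 1)) (y : Fin (2 * n + 1) → V) :
    Continuous (fun x => ev (2 * n + 1) (ceDb (finBasis ℝ V)
      (fundForm J (g x) ^ n)) y) ∧
    ∫ x, ev (2 * n + 1) (ceDb (finBasis ℝ V) (fundForm J (g x) ^ n)) y ∂μ = 0 := by
  rcases n with _ | m
  · have h1 : ∀ x, ev (2 * 0 + 1) (ceDb (finBasis ℝ V)
        (fundForm J (g x) ^ 0)) y = 0 := by
      intro x
      rw [pow_zero, ← map_one (algebraMap ℝ (Forms V)), ceDb_algebraMap, ev_zero]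
    simp only [h1]
    exact ⟨continuous_const, integral_zero _ _⟩
  · set W : G ⧸ Γ → (Fin (2 * m + 1 + 1) → V) → ℝ :=
      fun x => LieForms.wedgePow (LieForms.omega J (g x)) (m + 1) with hW
    have hs : SmoothForm E W := smooth_wedgePow (fun a b => hg.1 _ _) (m + 1)
    have h1 : ∀ x, ev (2 * (m + 1) + 1) (ceDb (finBasis ℝ V)
        (fundForm J (g x) ^ (m + 1))) y = LieForms.ceD (W x) y := by
      intro x
      have k : IsHermitianMetric J (g x) := hg.2 x
      have h4 : W x = ev (2 * m + 1 + 1) (fundForm J (g x) ^ (m + 1)) := by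
        funext z
        exact (ev_pow k.symInv hJ (m + 1) z).symm
      rw [h4]
      exact ev_ceDb (finBasis ℝ V) (2 * m + 1) (fundForm J (g x) ^ (m + 1)) y
    simp only [h1]
    refine ⟨(hs.ceD y).continuous, ?_⟩
    rw [integral_ceD μ hs]
    exact ceD_av_eq_zero μ i hs (hb m hn) y

include μ in
/-- the averaged inverse metric -/
theorem exists_basis_av {J : V →ₗ[ℝ] V}
    {g : G ⧸ Γ → LinearMap.BilinForm ℝ V} (hL : IsUnimodular V)
    (hJ : ∀ x, J (J x) = -x) (hg : IsSmoothMetric E J g) (hb : Balanced i J g) {n : ℕ}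
    (hn : finrank ℝ V = 2 * (n + 1)) :
    ∃ u : Basis (Fin (finrank ℝ V)) ℝ V, ∑ i, ⁅u i, J (u i)⁆ = 0 := by
  set b := finBasis ℝ V with hbdef
  set x₀ : G ⧸ Γ := ((1 : G) : G ⧸ Γ)
  have kx : ∀ x, IsHermitianMetric J (g x) := hg.2
  -- orthonormal bases
  choose u hu using fun x => exists_isON (hg.2 x).1 (hg.2 x).2.1
  obtain ⟨y₀, hy₀⟩ := exists_ev_pow_ne_zero (kx x₀).symInv hJ (hu x₀) (n + 1)
    (by rw [Fintype.card_fin]; omega)
  rw [ev_pow (kx x₀).symInv hJ] at hy₀
  -- the weight
  set w : G ⧸ Γ → ℝ := fun x => LieForms.wedgePow (LieForms.omega J (g x)) (n + 1) y₀ with hw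
  have hwpos : ∀ x, 0 < w x₀ * w x := fun x =>
    wedgePow_mul_pos hJ (hg.2 x₀) (hg.2 x) hn hy₀
  have hwcont : Continuous w :=
    (smooth_wedgePow (β := fun x => LieForms.omega J (g x)) (fun a b => hg.1 _ _) (n + 1)
      y₀).continuous
  -- the inverse metrics
  set S : G ⧸ Γ → Matrix (Fin (finrank ℝ V)) (Fin (finrank ℝ V)) ℝ :=
    fun x => LinearMap.BilinForm.toMatrix b (g x) with hS
  have hSpd : ∀ x, (S x).PosDef := fun x => (posDef_iff_form b (g x) (hg.2 x).1).mpr (hg.2 x).2.1
  have hScont : Continuous S := by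
    refine continuous_matrix fun i j => ?_
    have := (hg.1 (b i) (b j)).continuous
    refine this.congr fun x => ?_
    exact (LinearMap.BilinForm.toMatrix_apply b (g x) i j).symm
  have hinv : ∀ i j, Continuous fun x => (S x)⁻¹ i j := by
    intro i j
    have h1 : (fun x => (S x)⁻¹ i j) = fun x => (S x).det⁻¹ * (S x).adjugate i j := by
      funext x
      rw [Matrix.inv_def, Ring.inverse_eq_inv', Matrix.smul_apply, smul_eq_mul]
    rw [h1]
    refine Continuous.mul ?_ ?_
    · exact (hScont.matrix_det).inv₀ fun x => (hSpd x).det_pos.ne'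
    · exact (hScont.matrix_adjugate).matrix_elem i j
  -- the average
  set P : Matrix (Fin (finrank ℝ V)) (Fin (finrank ℝ V)) ℝ :=
    fun i j => ∫ x, w x₀ * w x * (S x)⁻¹ i j ∂μ with hP
  have hint : ∀ i j, Integrable (fun x => w x₀ * w x * (S x)⁻¹ i j) μ := fun i j =>
    integrable_of_continuous μ ((continuous_const.mul hwcont).mul (hinv i j))
  have hPpd : P.PosDef := by
    rw [posDef_iff_dotProduct_mulVec]
    constructor
    · ext i j
      rw [conjTranspose_apply, star_trivial]
      refine integral_congr_ae (Eventually.of_forall fun x => ?_)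
      have h1 := (hSpd x).inv.isHermitian.apply i j
      rw [star_trivial] at h1
      simp only [h1]
    · intro v hv
      have h1 : star v ⬝ᵥ (P *ᵥ v) =
          ∫ x, w x₀ * w x * (star v ⬝ᵥ ((S x)⁻¹ *ᵥ v)) ∂μ := by
        have h2 : ∀ x, w x₀ * w x * (star v ⬝ᵥ ((S x)⁻¹ *ᵥ v)) =
            ∑ i, ∑ j, v i * v j * (w x₀ * w x * (S x)⁻¹ i j) := by
          intro x
          simp only [dotProduct, mulVec, star_trivial, Finset.mul_sum]
          refine Finset.sum_congr rfl fun i _ => Finset.sum_congr rfl fun j _ => ?_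
          ring
        simp only [h2]
        rw [integral_finsetSum _ fun i _ => integrable_finsetSum _ fun j _ =>
          (hint i j).const_mul _]
        simp only [dotProduct, mulVec, star_trivial, Finset.mul_sum]
        refine Finset.sum_congr rfl fun i _ => ?_
        rw [integral_finsetSum _ fun j _ => (hint i j).const_mul _]
        refine Finset.sum_congr rfl fun j _ => ?_
        rw [integral_const_mul]
        ring
      rw [h1]
      refine integral_pos_of_pos μ ?_ fun x => ?_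
      · refine (continuous_const.mul hwcont).mul ?_
        simp only [dotProduct, mulVec]
        exact continuous_finsetSum _ fun i _ => continuous_const.mul
          (continuous_finsetSum _ fun j _ => (hinv i j).mul continuous_const)
      · exact mul_pos (hwpos x) ((posDef_iff_dotProduct_mulVec.mp (hSpd x).inv).2 hv)
  -- the averaged metric
  set a : LinearMap.BilinForm ℝ V := Matrix.toBilin b P⁻¹ with ha
  have haM : LinearMap.BilinForm.toMatrix b a = P⁻¹ := LinearMap.BilinForm.toMatrix_toBilin b _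
  have hPsym : P⁻¹ᵀ = P⁻¹ := by
    have := hPpd.inv.isHermitian.eq
    rwa [conjTranspose_eq_transpose_of_trivial] at this
  have hasym : ∀ v w, a v w = a w v := by
    intro v w
    rw [← b.equivFun.symm_apply_apply v, ← b.equivFun.symm_apply_apply w, ← quad_eq, ← quad_eq,
      haM, dotProduct_mulVec, ← mulVec_transpose, hPsym, dotProduct_comm]
  have hapos : ∀ v, v ≠ 0 → 0 < a v v := by
    rw [← posDef_iff_form b a hasym, haM]
    exact hPpd.inv
  obtain ⟨e, he⟩ := exists_isON hasym hapos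
  refine ⟨e, ?_⟩
  -- the bilinear map
  set B : V →ₗ[ℝ] V →ₗ[ℝ] V := adL ∘ₗ J with hB
  have hBapp : ∀ v w, B v w = ⁅J v, w⁆ := fun v w => rfl
  have h1 : ∑ i, ⁅J (e i), e i⁆ = ∑ i, ∑ j, P i j • ⁅J (b i), b j⁆ := by
    have h2 := sum_ON_eq he b B
    simp only [hBapp] at h2
    rw [h2, haM, Matrix.nonsing_inv_nonsing_inv P (isUnit_iff_ne_zero.mpr hPpd.det_pos.ne')]
  have h2 : ∑ i, ⁅J (e i), e i⁆ = 0 := by
    rw [← Module.forall_dual_apply_eq_zero_iff ℝ]
    intro α
    rw [h1, map_sum]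
    have h3 : ∀ x, w x₀ * w x * α (∑ i, ⁅J (u x i), u x i⁆) =
        ∑ i, ∑ j, (w x₀ * w x * (S x)⁻¹ i j) * α ⁅J (b i), b j⁆ := by
      intro x
      have h4 := sum_ON_eq (hu x) b B
      simp only [hBapp] at h4
      rw [h4, map_sum, Finset.mul_sum]
      refine Finset.sum_congr rfl fun i _ => ?_
      rw [map_sum, Finset.mul_sum]
      refine Finset.sum_congr rfl fun j _ => ?_
      rw [map_smul, smul_eq_mul]
      ring
    have h4 : ∑ i, α (∑ j, P i j • ⁅J (b i), b j⁆) =
        ∫ x, w x₀ * w x * α (∑ i, ⁅J (u x i), u x i⁆) ∂μ := by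
      simp only [h3]
      rw [integral_finsetSum _ fun i _ => integrable_finsetSum _ fun j _ =>
        (hint i j).mul_const _]
      refine Finset.sum_congr rfl fun i _ => ?_
      rw [integral_finsetSum _ fun j _ => (hint i j).mul_const _, map_sum]
      refine Finset.sum_congr rfl fun j _ => ?_
      rw [integral_mul_const, map_smul, smul_eq_mul]
    rw [h4]
    have h5 : ∀ x, w x₀ * w x * α (∑ i, ⁅J (u x i), u x i⁆) =
        w x₀ * ((((n : ℝ) + 1) * ((Fintype.card (Fin (finrank ℝ V)) : ℝ) - 2 * n)) *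
        ∑ j : Fin (2 * n + 1 + 1), (-1) ^ j.val * (α (y₀ j) *
          ev (2 * n + 1) (ceDb (finBasis ℝ V) (fundForm J (g x) ^ n))
            fun l => y₀ (j.succAbove l))) := by
      intro x
      rw [← balanced_identity hL hJ (kx x).symInv (hu x) hn α y₀]
      ring
    simp only [h5]
    rw [integral_const_mul, integral_const_mul, integral_finsetSum]
    · have h6 : ∀ j : Fin (2 * n + 1 + 1), ∫ x, (-1 : ℝ) ^ j.val * (α (y₀ j) *
          ev (2 * n + 1) (ceDb (finBasis ℝ V) (fundForm J (g x) ^ n))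
            fun l => y₀ (j.succAbove l)) ∂μ = 0 := by
        intro j
        rw [integral_const_mul, integral_const_mul, (integral_dpow μ hJ hg hb hn _).2, mul_zero,
          mul_zero]
      simp only [h6, Finset.sum_const_zero, mul_zero]
    · intro j _
      exact ((integrable_of_continuous μ (integral_dpow μ hJ hg hb hn _).1).const_mul _).const_mul _
  rw [← neg_eq_zero, ← Finset.sum_neg_distrib, ← h2]
  exact Finset.sum_congr rfl fun i _ => lie_skew _ _


variable {k : Type*} [AddCommGroup k] [Module ℝ k] {ρ : k →ₗ[ℝ] V →ₗ[ℝ] V} {Ω : V → V → k}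

/-- **Fino–Vezzoni, horizontal version.** -/
theorem exists_kahler_hor {J : V →ₗ[ℝ] V} (hM : IsModel ρ Ω J) (hΩ : ∀ x y, Ω x y = -Ω y x)
    (hL : IsUnimodular V) (hJ : LieForms.IsComplexStructure J) (κ : k →ₗ[ℝ] LieAlg E G)
    {g₁ g₂ : G ⧸ Γ → LinearMap.BilinForm ℝ V} (h₁ : IsSmoothMetric E J g₁)
    (hb : Balanced i J g₁) (h₂ : IsSmoothMetric E J g₂) (hp : Pluriclosed i J g₂)
    (hi : ∀ c x v w, g₂ x (ρ c v) w + g₂ x v (ρ c w) = deriv (κ c) (fun y => g₂ y v w) x) :
    ∃ g₃ : LinearMap.BilinForm ℝ V, LieForms.IsHermitianMetric J g₃ ∧ InvBil ρ g₃ ∧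
      LieForms.IsKahler J g₃ ∧ ∃ α ∈ invForms ρ, ∀ v w, LieForms.omega J g₃ v w =
        (∫ x, LieForms.omega J (g₂ x) v w ∂μ) + (1 / 2) * (α ⁅v, w⁆ + α ⁅J v, J w⁆) := by
  obtain ⟨a, ha, haH⟩ := exists_av μ h₂
  have hpa := isPluriclosed_av μ h₂ hp ha
  have hia : InvBil ρ a := by
    intro c v w
    rw [ha, ha, ← integral_add ((h₂.1 _ _).integrable μ) ((h₂.1 _ _).integrable μ)]
    simp only [hi]
    exact integral_deriv μ (h₂.1 v w) (κ c)
  obtain ⟨u, hu⟩ : ∃ u : Basis (Fin (finrank ℝ V)) ℝ V, ∑ i, ⁅u i, J (u i)⁆ = 0 := by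
    obtain ⟨n, hn⟩ := even_finrank hJ.1
    rcases n with _ | n
    · refine ⟨finBasis ℝ V, ?_⟩
      have hι : IsEmpty (Fin (finrank ℝ V)) := by
        rw [hn]; exact inferInstanceAs (IsEmpty (Fin 0))
      exact Fintype.sum_empty _
    · exact exists_basis_av μ hL hJ.1 h₁ hb (n := n) (by omega)
  obtain ⟨g₃, h3, hI, hK, α, hα, hαe⟩ := exists_kahler_weak hM hΩ hJ hu haH hia hpa
  refine ⟨g₃, h3, hI, hK, α, hα, fun v w => ?_⟩
  rw [hαe v w]
  unfold LieForms.omega
  rw [ha]

end Pool.Agent.Helper8.KV
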