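import Pool.Agent.Helper77.LH.Defs
import Mathlib

/-!
# Hermitian metrics on compact locally homogeneous complex manifolds

Let `G` be a Lie group with Lie algebra `L`, `K` a compact connected subgroup with Lie algebra `k`
and `Γ` a discrete subgroup such that `G / Γ` is compact.  As in `Pool.Agent.Helper77.LH.Defs`, a
differential form on `G / Γ` is a function of a point of `G / Γ` and of a tuple of elements of `L`
(by the fields `ξ_v`, the generators of the action of `G` on `G / Γ`).

The tensors on the double coset space `M = K \ G / Γ` (a compact manifold if `Γ` acts freely on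
`K \ G`) are the basic tensors on `G / Γ`: those which vanish as soon as one argument is tangent to
the orbits of `K` (that is, belongs to `k`) and which are invariant under `K` (that is, their Lie
derivatives along `ξ_c`, `c ∈ k`, vanish).  The exterior derivative of forms on `M` is the one of
`G / Γ`.
-/

open Module Manifold ContDiff MeasureTheory

namespace Pool.Agent.Helper8.KV

open Pool.Agent.Helper77

section

variable {L : Type*} [LieRing L] [LieAlgebra ℝ L]

/-- `J`, an endomorphism of the Lie algebra `L` of `G`, induces an integrable invariant complex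
structure on the homogeneous space of `G` with isotropy algebra `k` (whose tangent space is
`L / k`): it preserves `k`, squares to `-1` modulo `k`, commutes with `ad k` modulo `k`, and its
Nijenhuis tensor vanishes modulo `k`. -/
structure IsInvariantComplexStructure (k : LieSubalgebra ℝ L) (J : L →ₗ[ℝ] L) : Prop where
  map_mem : ∀ c ∈ k, J c ∈ k
  sq : ∀ x, J (J x) + x ∈ k
  invariant : ∀ c ∈ k, ∀ x, ⁅c, J x⁆ - J ⁅c, x⁆ ∈ k
  integrable : ∀ x y, ⁅J x, J y⁆ - ⁅x, y⁆ - J (⁅J x, y⁆ + ⁅x, J y⁆) ∈ k

/-- `k` has a complement in `L` which is invariant under `ad k`.  (The Lie algebra of a compact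
subgroup has one.) -/
def IsReductive (k : LieSubalgebra ℝ L) : Prop :=
  ∃ m : Submodule ℝ L, IsCompl m k.toSubmodule ∧ ∀ c ∈ k, ∀ x ∈ m, ⁅c, x⁆ ∈ m

end

variable {E : Type*} [NormedAddCommGroup E] [NormedSpace ℝ E] [FiniteDimensional ℝ E]
variable {G : Type*} [TopologicalSpace G] [ChartedSpace E G] [Group G] [LieGroup 𝓘(ℝ, E) ∞ G]
variable {Γ : Subgroup G}

/-- A (smooth) Hermitian metric on `M = K \ G / Γ`, as a basic tensor on `G / Γ`: a smooth field of
symmetric bilinear forms on `L`, with kernel `k`, positive modulo `k`, compatible with `J`, and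
with vanishing Lie derivative along `ξ_c`, `c ∈ k`. -/
structure IsBasicMetric (k : LieSubalgebra ℝ (LH.LieAlg E G))
    (J : LH.LieAlg E G →ₗ[ℝ] LH.LieAlg E G)
    (g : G ⧸ Γ → LinearMap.BilinForm ℝ (LH.LieAlg E G)) : Prop where
  smooth : ∀ v w, LH.Smooth E fun x => g x v w
  symm : ∀ x v w, g x v w = g x w v
  kernel : ∀ x, ∀ c ∈ k, ∀ v, g x c v = 0
  pos : ∀ x v, v ∉ k → 0 < g x v v
  hermitian : ∀ x v w, g x (J v) (J w) = g x v w
  invariant : ∀ c ∈ k, ∀ x v w, LH.deriv c (fun y => g y v w) x = g x ⁅c, v⁆ w + g x v ⁅c, w⁆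

/-- `d (ω ^ (n - 1)) = 0`, where `2 n = dim L - dim k` is the dimension of `M = K \ G / Γ` (an
empty condition if `n ≤ 1`). -/
def BasicBalanced (k : LieSubalgebra ℝ (LH.LieAlg E G)) (J : LH.LieAlg E G →ₗ[ℝ] LH.LieAlg E G)
    (g : G ⧸ Γ → LinearMap.BilinForm ℝ (LH.LieAlg E G)) : Prop :=
  ∀ m : ℕ, finrank ℝ (LH.LieAlg E G) = finrank ℝ k + 2 * (m + 2) →
    ∀ x v, LH.extD (k := 2 * m + 1)
      (fun y => LieForms.wedgePow (LieForms.omega J (g y)) (m + 1)) x v = 0

end Pool.Agent.Helper8.KV
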