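import Pool.Agent.Helper8.KV.Tr

/-!
Reduction of basic forms to horizontal forms.
-/

open Module Manifold ContDiff MeasureTheory

set_option linter.unusedSectionVars false

namespace Pool.Agent.Helper8.KV

open Pool.Agent.Helper77

section alg

variable {L : Type*} [LieRing L] [LieAlgebra ℝ L]
variable {k : LieSubalgebra ℝ L} {m : Submodule ℝ L} {h : IsCompl m k.toSubmodule}

theorem wedgePow_pr {β : L → L → ℝ}
    (hβ : ∀ a b, β a b = β (inc h (pr h a)) (inc h (pr h b))) (n : ℕ) (y : Fin (2 * n) → L) :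
    Helper77.LieForms.wedgePow β n y =
      Helper77.LieForms.wedgePow β n fun l => inc h (pr h (y l)) := by
  induction n with
  | zero => rfl
  | succ n ih =>
    change Helper77.LieForms.wedge β (Helper77.LieForms.wedgePow β n) y =
      Helper77.LieForms.wedge β (Helper77.LieForms.wedgePow β n) _
    unfold Helper77.LieForms.wedge
    refine Finset.sum_congr rfl fun i _ => Finset.sum_congr rfl fun j _ => ?_
    split_ifs
    · rw [hβ (y i), ih (Helper77.LieForms.del y i j)]
      rfl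
    · rfl

theorem wedgePow_inc (β : L → L → ℝ) (n : ℕ) (w : Fin (2 * n) → Hor h) :
    Helper77.LieForms.wedgePow β n (fun l => inc h (w l)) =
      LieForms.wedgePow (fun a b => β (inc h a) (inc h b)) n w := by
  induction n with
  | zero => rfl
  | succ n ih =>
    change Helper77.LieForms.wedge β (Helper77.LieForms.wedgePow β n) _ =
      LieForms.wedge (fun a b => β (inc h a) (inc h b))
        (LieForms.wedgePow (fun a b => β (inc h a) (inc h b)) n) w
    unfold Helper77.LieForms.wedge LieForms.wedge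
    refine Finset.sum_congr rfl fun i _ => Finset.sum_congr rfl fun j _ => ?_
    split_ifs
    · rw [← ih (LieForms.del w i j)]
      rfl
    · rfl

theorem ceD_hor {n : ℕ} {η : (Fin (n + 1) → L) → ℝ}
    (hη : ∀ (a : L) (t : Fin n → L), η (Fin.cons a t) = η (Fin.cons (inc h (pr h a)) t))
    (v : Fin (n + 2) → Hor h) :
    Helper77.LieForms.ceD η (fun l => inc h (v l)) =
      LieForms.ceD (fun w => η fun l => inc h (w l)) v := by
  unfold Helper77.LieForms.ceD LieForms.ceD
  refine Finset.sum_congr rfl fun i _ => Finset.sum_congr rfl fun j _ => ?_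
  split_ifs
  · congr 1
    rw [hη, ← bracket_def]
    congr 1
    funext l
    refine Fin.cases ?_ (fun l => ?_) l
    · simp
    · simp only [Fin.cons_succ]
      rfl
  · rfl

end alg

variable {E : Type*} [NormedAddCommGroup E] [NormedSpace ℝ E] [FiniteDimensional ℝ E]
variable {G : Type*} [TopologicalSpace G] [ChartedSpace E G] [Group G] [LieGroup 𝓘(ℝ, E) ∞ G]
variable {Γ : Subgroup G}
variable {k : LieSubalgebra ℝ (LH.LieAlg E G)} {m : Submodule ℝ (LH.LieAlg E G)}
variable {h : IsCompl m k.toSubmodule} {J : LH.LieAlg E G →ₗ[ℝ] LH.LieAlg E G}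
variable {g : G ⧸ Γ → LinearMap.BilinForm ℝ (LH.LieAlg E G)}

theorem extD_hor {n : ℕ} {W : G ⧸ Γ → (Fin (n + 1) → LH.LieAlg E G) → ℝ}
    (hW : ∀ x (a : LH.LieAlg E G) (t : Fin n → LH.LieAlg E G),
      W x (Fin.cons a t) = W x (Fin.cons (inc h (pr h a)) t))
    (x : G ⧸ Γ) (v : Fin (n + 2) → Hor h) :
    LH.extD W x (fun l => inc h (v l)) =
      extD (inc h) (fun y w => W y fun l => inc h (w l)) x v := by
  unfold LH.extD extD
  rw [ceD_hor (hW x)]

theorem deriv_add (v w : LH.LieAlg E G) (f : G ⧸ Γ → ℝ) (x : G ⧸ Γ) :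
    LH.deriv (v + w) f x = LH.deriv v f x + LH.deriv w f x := by
  unfold LH.deriv
  exact map_add _ _ _

theorem deriv_zero_fun (v : LH.LieAlg E G) {f : G ⧸ Γ → ℝ} (hf : ∀ y, f y = 0) (x : G ⧸ Γ) :
    LH.deriv v f x = 0 := by
  have : f = fun _ => 0 := funext hf
  rw [this]
  exact LH.deriv_const v 0 x

theorem deriv_neg_fun (v : LH.LieAlg E G) {f : G ⧸ Γ → ℝ} (x : G ⧸ Γ) :
    LH.deriv v (fun y => -f y) x = -LH.deriv v f x := by
  unfold LH.deriv
  have := mfderiv_neg (I := 𝓘(ℝ, E)) (f := fun g : G => f (g⁻¹ • x)) (x := 1)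
  have h2 : (fun g : G => -f (g⁻¹ • x)) = -fun g : G => f (g⁻¹ • x) := rfl
  rw [h2, this]
  rfl

/-- the exterior derivative of the fundamental form -/
noncomputable def T (J : LH.LieAlg E G →ₗ[ℝ] LH.LieAlg E G)
    (g : G ⧸ Γ → LinearMap.BilinForm ℝ (LH.LieAlg E G)) (x : G ⧸ Γ) (a b c : LH.LieAlg E G) : ℝ :=
  LH.deriv a (fun y => g y (J b) c) x - LH.deriv b (fun y => g y (J a) c) x +
    LH.deriv c (fun y => g y (J a) b) x - g x (J ⁅a, b⁆) c + g x (J ⁅a, c⁆) b - g x (J ⁅b, c⁆) a

theorem extD_fund (x : G ⧸ Γ) (v : Fin 3 → LH.LieAlg E G) :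
    LH.extD (k := 1) (LH.fund J g) x v = T J g x (v 0) (v 1) (v 2) := by
  unfold LH.extD T Helper77.LieForms.ceD
  simp only [Fin.sum_univ_succ, Fin.sum_univ_zero]
  simp [LH.fund, Helper77.LieForms.omega, Helper77.LieForms.del, Fin.succAbove]
  ring

section basic

variable (hJ : IsInvariantComplexStructure k J) (hg : IsBasicMetric k J g)

include hg

theorem g_add_left (x : G ⧸ Γ) (a w : LH.LieAlg E G) {c : LH.LieAlg E G} (hc : c ∈ k) :
    g x (a + c) w = g x a w := by
  rw [map_add, LinearMap.add_apply, hg.kernel x c hc, add_zero]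

theorem g_add_right (x : G ⧸ Γ) (a w : LH.LieAlg E G) {c : LH.LieAlg E G} (hc : c ∈ k) :
    g x a (w + c) = g x a w := by
  rw [map_add, hg.symm x a c, hg.kernel x c hc, add_zero]

theorem g_left (x : G ⧸ Γ) (a w : LH.LieAlg E G) : g x a w = g x (inc h (pr h a)) w := by
  conv_lhs => rw [← decomp h a]
  exact g_add_left hg x _ _ (prk_mem h a)

theorem g_right (x : G ⧸ Γ) (a w : LH.LieAlg E G) : g x a w = g x a (inc h (pr h w)) := by
  conv_lhs => rw [← decomp h w]
  exact g_add_right hg x _ _ (prk_mem h w)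

include hJ

theorem omega_skew (x : G ⧸ Γ) (b c : LH.LieAlg E G) : g x (J b) c = -g x (J c) b := by
  have h1 := hg.hermitian x (J b) c
  have h2 : J (J b) = -b + (J (J b) + b) := by abel
  rw [h2, g_add_left hg x _ _ (hJ.sq b), map_neg, LinearMap.neg_apply, hg.symm x b] at h1
  exact h1.symm

theorem lie_J_k (x : G ⧸ Γ) {c : LH.LieAlg E G} (hc : c ∈ k) (b w : LH.LieAlg E G) :
    g x ⁅c, J b⁆ w = g x (J ⁅c, b⁆) w := by
  have h1 : ⁅c, J b⁆ = J ⁅c, b⁆ + (⁅c, J b⁆ - J ⁅c, b⁆) := by abel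
  rw [h1, g_add_left hg x _ _ (hJ.invariant c hc b)]

theorem T_add_k (x : G ⧸ Γ) (a b c : LH.LieAlg E G) {d : LH.LieAlg E G} (hd : d ∈ k) :
    T J g x (a + d) b c = T J g x a b c := by
  unfold T
  have e1 : (fun y => g y (J (a + d)) c) = fun y => g y (J a) c := by
    funext y
    rw [map_add, g_add_left hg y _ _ (hJ.map_mem d hd)]
  have e2 : (fun y => g y (J (a + d)) b) = fun y => g y (J a) b := by
    funext y
    rw [map_add, g_add_left hg y _ _ (hJ.map_mem d hd)]
  rw [e1, e2, deriv_add, hg.invariant d hd, lie_J_k hJ hg x hd, g_add_right hg x _ _ hd,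
    _root_.add_lie, _root_.add_lie, map_add, map_add, map_add, map_add, LinearMap.add_apply,
    LinearMap.add_apply, omega_skew hJ hg x ⁅d, c⁆ b]
  ring

theorem T_swap₁ (x : G ⧸ Γ) (a b c : LH.LieAlg E G) : T J g x a b c = -T J g x b a c := by
  unfold T
  have e1 : (fun y => g y (J a) b) = fun y => -g y (J b) a := by
    funext y
    exact omega_skew hJ hg y a b
  rw [e1, deriv_neg_fun, ← _root_.lie_skew a b, map_neg, map_neg, LinearMap.neg_apply]
  ring

theorem T_swap₂ (x : G ⧸ Γ) (a b c : LH.LieAlg E G) : T J g x a b c = -T J g x a c b := by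
  unfold T
  have e1 : (fun y => g y (J b) c) = fun y => -g y (J c) b := by
    funext y
    exact omega_skew hJ hg y b c
  rw [e1, deriv_neg_fun, ← _root_.lie_skew b c, map_neg, map_neg, LinearMap.neg_apply]
  ring

theorem T_congr (x : G ⧸ Γ) (a b c : LH.LieAlg E G) : T J g x a b c =
    T J g x (inc h (pr h a)) (inc h (pr h b)) (inc h (pr h c)) := by
  have h1 : ∀ a b c, T J g x a b c = T J g x (inc h (pr h a)) b c := by
    intro a b c
    conv_lhs => rw [← decomp h a]
    exact T_add_k hJ hg x _ _ _ (prk_mem h a)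
  rw [h1, T_swap₁ hJ hg, h1, T_swap₁ hJ hg, neg_neg, T_swap₂ hJ hg, T_swap₁ hJ hg, h1,
    T_swap₁ hJ hg, T_swap₂ hJ hg]
  ring

end basic

end Pool.Agent.Helper8.KV
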