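import Pool.Agent.Helper8.KV.HMain
import Pool.Agent.Helper8.KV.LDefs

/-!
The infinitesimal model of a reductive homogeneous complex space.
-/

open Module

set_option linter.unusedSectionVars false

namespace Pool.Agent.Helper8.KV

section

variable {L : Type*} [LieRing L] [LieAlgebra ℝ L]

variable {k : LieSubalgebra ℝ L} {m : Submodule ℝ L}

/-- The horizontal space (a copy of the complement). -/
def Hor (_h : IsCompl m k.toSubmodule) : Type _ := m

variable (h : IsCompl m k.toSubmodule)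

noncomputable instance : AddCommGroup (Hor h) := inferInstanceAs (AddCommGroup m)
noncomputable instance : Module ℝ (Hor h) := inferInstanceAs (Module ℝ m)
noncomputable instance [FiniteDimensional ℝ L] : FiniteDimensional ℝ (Hor h) :=
  inferInstanceAs (FiniteDimensional ℝ m)

/-- the inclusion of the horizontal space -/
noncomputable def inc : Hor h →ₗ[ℝ] L := m.subtype

/-- the projection to the horizontal space -/
noncomputable def pr : L →ₗ[ℝ] Hor h := m.projectionOnto k.toSubmodule h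

/-- the projection to `k` -/
noncomputable def prk : L →ₗ[ℝ] k.toSubmodule := k.toSubmodule.projectionOnto m h.symm

theorem pr_inc (x : Hor h) : pr h (inc h x) = x := Submodule.projectionOnto_apply_left h x

theorem inc_mem (x : Hor h) : inc h x ∈ m := x.2

theorem inc_injective : Function.Injective (inc h) := Subtype.val_injective

theorem pr_mem {x : L} (hx : x ∈ k) : pr h x = 0 :=
  (Submodule.projectionOnto_apply_eq_zero_iff h).mpr hx

theorem pr_eq_zero {x : L} (hx : pr h x = 0) : x ∈ k :=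
  (Submodule.projectionOnto_apply_eq_zero_iff h).mp hx

theorem inc_pr {x : L} (hx : x ∈ m) : inc h (pr h x) = x := by
  obtain ⟨y, rfl⟩ : ∃ y : Hor h, inc h y = x := ⟨⟨x, hx⟩, rfl⟩
  rw [pr_inc]

theorem sub_mem_k (x : L) : x - inc h (pr h x) ∈ k := by
  apply pr_eq_zero h
  rw [map_sub, pr_inc, sub_self]

theorem decomp (x : L) : inc h (pr h x) + (prk h x : L) = x := by
  have h1 : (prk h (inc h (pr h x)) : L) = 0 := by
    have : prk h (inc h (pr h x)) = 0 :=
      (Submodule.projectionOnto_apply_eq_zero_iff h.symm).mpr (inc_mem h _)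
    rw [this]; rfl
  have h2 : (prk h (x - inc h (pr h x)) : L) = x - inc h (pr h x) := by
    have := Submodule.projectionOnto_apply_left h.symm
      (⟨x - inc h (pr h x), sub_mem_k h x⟩ : k.toSubmodule)
    exact congrArg Subtype.val this
  rw [map_sub] at h2
  have h3 : (prk h x : L) = x - inc h (pr h x) := by
    rw [← h2]
    change (prk h x : L) = (prk h x : L) - (prk h (inc h (pr h x)) : L)
    rw [h1, sub_zero]
  rw [h3]; abel

theorem prk_mem (x : L) : (prk h x : L) ∈ k := (prk h x).2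

noncomputable instance : SkewAlg (Hor h) where
  bracket x y := pr h ⁅inc h x, inc h y⁆
  add_lie' x y z := by
    change pr h ⁅inc h (x + y), inc h z⁆ = pr h ⁅inc h x, inc h z⁆ + pr h ⁅inc h y, inc h z⁆
    rw [map_add, _root_.add_lie, map_add]
  smul_lie' r x y := by
    change pr h ⁅inc h (r • x), inc h y⁆ = r • pr h ⁅inc h x, inc h y⁆
    rw [map_smul, _root_.smul_lie, map_smul]
  skew' x y := by
    change -pr h ⁅inc h y, inc h x⁆ = pr h ⁅inc h x, inc h y⁆
    rw [← map_neg, _root_.lie_skew]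

theorem bracket_def (x y : Hor h) : ⁅x, y⁆ = pr h ⁅inc h x, inc h y⁆ := rfl

/-- the isotropy representation -/
noncomputable def isot : k.toSubmodule →ₗ[ℝ] Hor h →ₗ[ℝ] Hor h :=
  LinearMap.mk₂ ℝ (fun (c : k.toSubmodule) (x : Hor h) => pr h ⁅(c : L), inc h x⁆)
    (fun c c' x => by
      rw [Submodule.coe_add, _root_.add_lie, map_add])
    (fun r c x => by
      rw [Submodule.coe_smul, _root_.smul_lie, map_smul])
    (fun c x y => by rw [map_add, _root_.lie_add, map_add])
    (fun r c x => by rw [map_smul, _root_.lie_smul, map_smul])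

theorem isot_apply (c : k.toSubmodule) (x : Hor h) : isot h c x = pr h ⁅(c : L), inc h x⁆ := rfl

/-- the `k`-part of the bracket -/
noncomputable def curv (x y : Hor h) : k.toSubmodule := prk h ⁅inc h x, inc h y⁆

theorem curv_skew (x y : Hor h) : curv h x y = -curv h y x := by
  unfold curv
  rw [← map_neg, _root_.lie_skew]

/-- the complex structure of the horizontal space -/
noncomputable def horJ (J : L →ₗ[ℝ] L) : Hor h →ₗ[ℝ] Hor h := pr h ∘ₗ J ∘ₗ inc h

theorem horJ_apply (J : L →ₗ[ℝ] L) (x : Hor h) : horJ h J x = pr h (J (inc h x)) := rfl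

variable {h} {J : L →ₗ[ℝ] L}

theorem inc_isot (hm : ∀ c ∈ k, ∀ x ∈ m, ⁅c, x⁆ ∈ m) (c : k.toSubmodule) (x : Hor h) :
    inc h (isot h c x) = ⁅(c : L), inc h x⁆ := by
  rw [isot_apply]
  exact inc_pr h (hm _ c.2 _ (inc_mem h x))

/-- changing the second argument of `ad c`, `c ∈ k`, modulo `k` -/
theorem pr_lie_k {c : L} (hc : c ∈ k) (x : L) : pr h ⁅c, x⁆ = pr h ⁅c, inc h (pr h x)⁆ := by
  conv_lhs => rw [← decomp h x]
  rw [_root_.lie_add, map_add, pr_mem h (k.lie_mem hc (prk_mem h x)), add_zero]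

theorem isot_pr (c : k.toSubmodule) (x : L) : isot h c (pr h x) = pr h ⁅(c : L), x⁆ := by
  rw [isot_apply, ← pr_lie_k c.2]

theorem pr_J (hJ : IsInvariantComplexStructure k J) (x : L) :
    pr h (J x) = horJ h J (pr h x) := by
  rw [horJ_apply]
  conv_lhs => rw [← decomp h x]
  rw [map_add, map_add, pr_mem h (hJ.map_mem _ (prk_mem h x)), add_zero]

theorem horJ_sq (hJ : IsInvariantComplexStructure k J) (x : Hor h) :
    horJ h J (horJ h J x) = -x := by
  rw [horJ_apply h J x, ← pr_J hJ]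
  have h1 := pr_mem h (hJ.sq (inc h x))
  rw [map_add, pr_inc] at h1
  exact eq_neg_of_add_eq_zero_left h1

theorem isot_comm (hJ : IsInvariantComplexStructure k J) (c : k.toSubmodule) (x : Hor h) :
    isot h c (horJ h J x) = horJ h J (isot h c x) := by
  rw [horJ_apply h J x, isot_pr, isot_apply, ← pr_J hJ]
  have h1 := pr_mem h (hJ.invariant c c.2 (inc h x))
  rw [map_sub] at h1
  exact sub_eq_zero.mp h1

theorem isot_der (hm : ∀ c ∈ k, ∀ x ∈ m, ⁅c, x⁆ ∈ m) (c : k.toSubmodule) (x y : Hor h) :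
    isot h c ⁅x, y⁆ = ⁅isot h c x, y⁆ + ⁅x, isot h c y⁆ := by
  rw [bracket_def, bracket_def, bracket_def, isot_pr, inc_isot hm, inc_isot hm, ← map_add,
    leibniz_lie]

theorem isot_jac (x y z : Hor h) : ⁅x, ⁅y, z⁆⁆ + ⁅y, ⁅z, x⁆⁆ + ⁅z, ⁅x, y⁆⁆ =
    isot h (curv h y z) x + isot h (curv h z x) y + isot h (curv h x y) z := by
  have h1 : ∀ a b c : Hor h, ⁅a, ⁅b, c⁆⁆ = pr h ⁅inc h a, ⁅inc h b, inc h c⁆⁆ +
      isot h (curv h b c) a := by
    intro a b c
    rw [bracket_def h a, bracket_def h b c, isot_apply]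
    conv_rhs => enter [1, 2, 2]; rw [← decomp h ⁅inc h b, inc h c⁆]
    rw [_root_.lie_add, map_add]
    have h2 : pr h ⁅inc h a, (prk h ⁅inc h b, inc h c⁆ : L)⁆ =
        -pr h ⁅(curv h b c : L), inc h a⁆ := by
      rw [← map_neg, _root_.lie_skew]
      rfl
    rw [h2]
    abel
  rw [h1 x y z, h1 y z x, h1 z x y]
  have h2 : pr h ⁅inc h x, ⁅inc h y, inc h z⁆⁆ + pr h ⁅inc h y, ⁅inc h z, inc h x⁆⁆ +
      pr h ⁅inc h z, ⁅inc h x, inc h y⁆⁆ = 0 := by
    rw [← map_add, ← map_add, lie_jacobi, map_zero]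
  have h3 : ∀ a b c d e f : Hor h, a + b + c = 0 → a + d + (b + e) + (c + f) = d + e + f := by
    intro a b c d e f h0
    have : a + d + (b + e) + (c + f) = (a + b + c) + (d + e + f) := by abel
    rw [this, h0, zero_add]
  exact h3 _ _ _ _ _ _ h2

theorem isModel (hm : ∀ c ∈ k, ∀ x ∈ m, ⁅c, x⁆ ∈ m) (hJ : IsInvariantComplexStructure k J) :
    IsModel (isot h) (curv h) (horJ h J) where
  der := isot_der hm
  comm := isot_comm hJ
  jac := isot_jac

theorem horJ_isComplexStructure (hm : ∀ c ∈ k, ∀ x ∈ m, ⁅c, x⁆ ∈ m)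
    (hJ : IsInvariantComplexStructure k J) : LieForms.IsComplexStructure (horJ h J) := by
  refine ⟨horJ_sq hJ, fun x y => ?_⟩
  set a := prk h (J (inc h x)) with ha
  set b := prk h (J (inc h y)) with hb
  have e1 : J (inc h x) = inc h (horJ h J x) + (a : L) := (decomp h (J (inc h x))).symm
  have e2 : J (inc h y) = inc h (horJ h J y) + (b : L) := (decomp h (J (inc h y))).symm
  have h1 := pr_mem h (hJ.integrable (inc h x) (inc h y))
  rw [map_sub, map_sub, pr_J hJ, map_add] at h1
  have f1 : pr h ⁅J (inc h x), J (inc h y)⁆ = ⁅horJ h J x, horJ h J y⁆ +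
      isot h a (horJ h J y) - isot h b (horJ h J x) := by
    rw [e1, e2, _root_.add_lie, _root_.lie_add, _root_.lie_add, map_add, map_add, map_add,
      pr_mem h (k.lie_mem a.2 b.2), add_zero, bracket_def, isot_apply, isot_apply]
    have : pr h ⁅inc h (horJ h J x), (b : L)⁆ = -pr h ⁅(b : L), inc h (horJ h J x)⁆ := by
      rw [← map_neg, _root_.lie_skew]
    rw [this]
    abel
  have f2 : pr h ⁅J (inc h x), inc h y⁆ = ⁅horJ h J x, y⁆ + isot h a y := by
    rw [e1, _root_.add_lie, map_add, bracket_def, isot_apply]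
  have f3 : pr h ⁅inc h x, J (inc h y)⁆ = ⁅x, horJ h J y⁆ - isot h b x := by
    rw [e2, _root_.lie_add, map_add, bracket_def, isot_apply]
    have : pr h ⁅inc h x, (b : L)⁆ = -pr h ⁅(b : L), inc h x⁆ := by
      rw [← map_neg, _root_.lie_skew]
    rw [this]
    abel
  rw [f1, f2, f3, ← bracket_def] at h1
  have f4 : horJ h J (⁅horJ h J x, y⁆ + isot h a y + (⁅x, horJ h J y⁆ - isot h b x)) =
      horJ h J (⁅horJ h J x, y⁆ + ⁅x, horJ h J y⁆) + isot h a (horJ h J y) -
        isot h b (horJ h J x) := by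
    rw [isot_comm hJ, isot_comm hJ, ← map_add, ← map_sub]
    congr 1
    abel
  rw [f4] at h1
  have h2 : ⁅horJ h J x, horJ h J y⁆ -
      (⁅x, y⁆ + horJ h J (⁅horJ h J x, y⁆ + ⁅x, horJ h J y⁆)) = 0 := by
    rw [← h1]
    abel
  exact sub_eq_zero.mp h2

end

end Pool.Agent.Helper8.KV
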