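import Pool.Agent.Helper8.KV.Bridge

/-!
The main theorem in terms of tuple forms.
-/

open Module

set_option linter.unusedSectionVars false

namespace Pool.Agent.Helper8.KV

variable {L : Type*} [AddCommGroup L] [Module ℝ L] [SkewAlg L] [FiniteDimensional ℝ L]
variable {J : L →ₗ[ℝ] L} {g : LinearMap.BilinForm ℝ L}

theorem ev_pullJ (J : L →ₗ[ℝ] L) (k : ℕ) (η : Forms L) (x : Fin k → L) :
    ev k (pullJ J η) x = ev k η fun i => J (x i) := by
  induction k generalizing η with
  | zero =>
    change ExteriorAlgebra.algebraMapInv (pullJ J η) = ExteriorAlgebra.algebraMapInv η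
    have h1 : (ExteriorAlgebra.algebraMapInv (R := ℝ) (M := Dual ℝ L)).comp (pullJ J) =
        ExteriorAlgebra.algebraMapInv := by
      apply ExteriorAlgebra.hom_ext
      ext α
      unfold pullJ ExteriorAlgebra.algebraMapInv
      simp
    exact DFunLike.congr_fun h1 η
  | succ k ih =>
    change ev k (intProd (x 0) (pullJ J η)) (Fin.tail x) = _
    rw [intProd_pullJ, ih]
    rfl

theorem ev_pow (h : SymInv J g) (hJ : ∀ x, J (J x) = -x) (m : ℕ) (x : Fin (2 * m) → L) :
    ev (2 * m) (fundForm J g ^ m) x = LieForms.wedgePow (LieForms.omega J g) m x := by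
  induction m with
  | zero =>
    change ev 0 (fundForm J g ^ 0) x = 1
    rw [pow_zero, ← map_one (algebraMap ℝ (Forms L)), ev_algebraMap]
  | succ m ih =>
    change ev (2 * m + 2) (fundForm J g ^ (m + 1)) x =
      LieForms.wedge (LieForms.omega J g) (LieForms.wedgePow (LieForms.omega J g) m) x
    rw [pow_succ', ev_fundForm_mul h hJ]
    congr 1
    funext y
    exact ih y

variable {ι : Type*} [Fintype ι] [DecidableEq ι] {u : Basis ι ℝ L}

theorem exists_ev_pow_ne_zero (h : SymInv J g) (hJ : ∀ x, J (J x) = -x) (hu : IsON g u) (m : ℕ)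
    (hm : 2 * m ≤ Fintype.card ι) : ∃ x, ev (2 * m) (fundForm J g ^ m) x ≠ 0 := by
  induction m with
  | zero =>
    refine ⟨Fin.elim0, ?_⟩
    change ev 0 (fundForm J g ^ 0) _ ≠ 0
    rw [pow_zero, ← map_one (algebraMap ℝ (Forms L)), ev_algebraMap]
    exact one_ne_zero
  | succ m ih =>
    obtain ⟨y, hy⟩ := ih (by omega)
    by_contra hcon
    push Not at hcon
    have h1 := congrArg (fun η => ev (2 * m) η y) (contr_pow h hJ hu m)
    simp only [ev_sum, ev_smul] at h1
    have h2 : ∀ i, ev (2 * m) (intProd (J (u i)) (intProd (u i) (fundForm J g ^ (m + 1)))) y =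
        0 := by
      intro i
      have := hcon (Fin.cons (u i) (Fin.cons (J (u i)) y))
      change ev (2 * m + 2) _ _ = 0 at this
      rwa [ev_cons, ev_cons] at this
    simp only [h2, Finset.sum_const_zero] at h1
    have h3 : (2 * ((m : ℝ) + 1)) ≤ Fintype.card ι := by
      exact_mod_cast hm
    have h4 : (0 : ℝ) < (m : ℝ) + 1 := by positivity
    have h5 : (0 : ℝ) < (Fintype.card ι : ℝ) - 2 * m := by linarith
    rcases mul_eq_zero.mp h1.symm with h6 | h6
    · exact (mul_pos h4 h5).ne' h6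
    · exact hy h6

/-- On a unimodular Lie algebra, a balanced metric has `∑ [u_i, J u_i] = 0`. -/
theorem sum_lie_eq_zero_of_ev (hL : IsUnimodular L) (hJ : ∀ x, J (J x) = -x)
    (h : SymInv J g) (hu : IsON g u) {n : ℕ} (hn : finrank ℝ L = 2 * (n + 1))
    (hb : ∀ x, ev (2 * n + 1) (ceDb (finBasis ℝ L) (fundForm J g ^ n)) x = 0) :
    ∑ i, ⁅u i, J (u i)⁆ = 0 := by
  have hcard : Fintype.card ι = finrank ℝ L := (Module.finrank_eq_card_basis u).symm
  set vol : Forms L := fundForm J g ^ (n + 1) with hvoldef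
  have hvol : ∀ α : Dual ℝ L, oneForm α * vol = 0 := fun α =>
    oneForm_mul_pow_eq_zero J g α (n + 1) (by omega)
  obtain ⟨y, hy⟩ := exists_ev_pow_ne_zero h hJ hu (n + 1) (by omega)
  have h1 := contr_pow h hJ hu n
  have hlin : ∀ (s : Finset ι) (f : ι → Forms L), ceDb (finBasis ℝ L) (∑ i ∈ s, f i) =
      ∑ i ∈ s, ceDb (finBasis ℝ L) (f i) := by
    intro s f
    simp only [← ceD_eq]
    exact map_sum _ _ _
  have h3 := congrArg (ceDb (finBasis ℝ L)) h1
  rw [hlin, ← ceD_eq (_ • _), map_smul, ceD_eq] at h3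
  have h4 : ∀ i, ceDb (finBasis ℝ L) (intProd (J (u i)) (intProd (u i) vol)) =
      intProd ⁅J (u i), u i⁆ vol := fun i => ceDb_contr2 _ hL hvol _ _
  simp only [← hvoldef, h4] at h3
  rw [← intProd_sum] at h3
  set z := ∑ i, ⁅J (u i), u i⁆ with hz
  have h5 : ∀ x, ev (2 * n + 1) (intProd z vol) x = 0 := by
    intro x
    rw [h3, ev_smul, hb, mul_zero]
  have h6 : ∀ α : Dual ℝ L, α z = 0 := by
    intro α
    have h7 := congrArg (fun η => ev (2 * (n + 1)) η y) (oneForm_mul_intProd hvol α z)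
    simp only [ev_smul] at h7
    have h8 : ev (2 * n + 1 + 1) (oneForm α * intProd z vol) y = 0 := by
      rw [ev_oneForm_mul]
      exact Finset.sum_eq_zero fun j _ => by rw [h5, mul_zero, mul_zero]
    have h9 : α z * ev (2 * (n + 1)) vol y = 0 := by rw [← h7]; exact h8
    exact (mul_eq_zero.mp h9).resolve_right hy
  have h7 : z = 0 := (Module.forall_dual_apply_eq_zero_iff ℝ _).mp h6
  rw [← neg_eq_zero, ← Finset.sum_neg_distrib, ← h7, hz]
  exact Finset.sum_congr rfl fun i _ => lie_skew _ _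

theorem ev_two_fundForm (h : SymInv J g) (hJ : ∀ x, J (J x) = -x) (x : Fin 2 → L) :
    ev 2 (fundForm J g) x = g (J (x 0)) (x 1) := by
  change ExteriorAlgebra.algebraMapInv (intProd (x 1) (intProd (x 0) (fundForm J g))) = _
  rw [intProd_intProd_fundForm h hJ]
  exact ExteriorAlgebra.algebraMap_leftInverse _ _

theorem ev_three_ceD (h : SymInv J g) (hJ : ∀ x, J (J x) = -x) (x : Fin 3 → L) :
    ev 3 (ceD (fundForm J g)) x = LieForms.dTwo (LieForms.omega J g) x := by
  rw [ceD_eq]
  refine (ev_ceDb (finBasis ℝ L) 1 (fundForm J g) x).trans ?_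
  unfold LieForms.dTwo
  congr 1
  funext y
  exact ev_two_fundForm h hJ y

theorem dcForm_of_isPluriclosed (h : SymInv J g) (hJ : ∀ x, J (J x) = -x)
    (hp : LieForms.IsPluriclosed J g) (x y z w : L) : dcForm J g x y z w = 0 := by
  have h1 := hp ![x, y, z, w]
  have h2 : (fun y => LieForms.dTwo (LieForms.omega J g) fun i => J (y i)) =
      ev 3 (pullJ J (ceD (fundForm J g))) := by
    funext y
    rw [ev_pullJ, ev_three_ceD h hJ]
  rw [h2] at h1
  have h3 := (ev_ceDb (finBasis ℝ L) 2 (pullJ J (ceD (fundForm J g))) ![x, y, z, w]).trans h1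
  rw [← ceD_eq] at h3
  change ExteriorAlgebra.algebraMapInv (intProd w (intProd z (intProd y (intProd x
    (ceD (pullJ J (ceD (fundForm J g)))))))) = 0 at h3
  rw [eval_dJdω h hJ] at h3
  have h4 : ExteriorAlgebra.algebraMapInv (algebraMap ℝ (Forms L) (-dcForm J g x y z w)) =
      -dcForm J g x y z w := ExteriorAlgebra.algebraMap_leftInverse _ _
  rw [h4] at h3
  linarith

end Pool.Agent.Helper8.KV
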