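import Pool.Agent.Helper8.KV.Red

/-!
Unimodularity of the horizontal bracket.
-/

open Module

set_option linter.unusedSectionVars false

namespace Pool.Agent.Helper8.KV

variable {L : Type*} [LieRing L] [LieAlgebra ℝ L] [FiniteDimensional ℝ L]
variable {k : LieSubalgebra ℝ L} {m : Submodule ℝ L} {h : IsCompl m k.toSubmodule}

theorem hor_unimodular (hm : ∀ c ∈ k, ∀ x ∈ m, ⁅c, x⁆ ∈ m)
    (hL : Helper77.LieForms.IsUnimodular L) : IsUnimodular (Hor h) := by
  intro x
  set A : L →ₗ[ℝ] L := LieAlgebra.ad ℝ L (inc h x) with hA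
  have h1 : adL x = pr h ∘ₗ (A ∘ₗ inc h) := by
    ext y
    rfl
  have h2 : LinearMap.trace ℝ (Hor h) (adL x) = LinearMap.trace ℝ L ((A ∘ₗ inc h) ∘ₗ pr h) := by
    rw [h1]
    exact LinearMap.trace_comp_comm' (A ∘ₗ inc h) (pr h)
  have h3 : LinearMap.trace ℝ L ((A ∘ₗ k.toSubmodule.subtype) ∘ₗ prk h) = 0 := by
    rw [LinearMap.trace_comp_comm']
    have : prk h ∘ₗ (A ∘ₗ k.toSubmodule.subtype) = 0 := by
      apply LinearMap.ext
      intro c
      change prk h ⁅inc h x, (c : L)⁆ = 0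
      have h4 : ⁅inc h x, (c : L)⁆ ∈ m := by
        rw [← _root_.lie_skew]
        exact m.neg_mem (hm _ c.2 _ (inc_mem h x))
      exact (Submodule.projectionOnto_apply_eq_zero_iff h.symm).mpr h4
    rw [this, map_zero]
  have h4 : A = (A ∘ₗ inc h) ∘ₗ pr h + (A ∘ₗ k.toSubmodule.subtype) ∘ₗ prk h := by
    apply LinearMap.ext
    intro y
    change A y = A (inc h (pr h y)) + A (prk h y : L)
    rw [← map_add, decomp]
  have h5 : LinearMap.trace ℝ L A = 0 := hL (inc h x)
  rw [h4, map_add, h3, add_zero] at h5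
  rw [h2, h5]

end Pool.Agent.Helper8.KV
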