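import Pool.Agent.Helper8.KV.TMain

/-!
Algebraic part: the weight and the averaged inverse metric.
-/

open Module Matrix

set_option linter.unusedSectionVars false

namespace Pool.Agent.Helper8.KV

variable {L : Type*} [AddCommGroup L] [Module ℝ L] [SkewAlg L] [FiniteDimensional ℝ L]
variable {J : L →ₗ[ℝ] L} {g : LinearMap.BilinForm ℝ L}

variable {k : Type*} [AddCommGroup k] [Module ℝ k] {ρ : k →ₗ[ℝ] L →ₗ[ℝ] L} {Ω : L → L → k}

/-- Fino–Vezzoni on an infinitesimal model, with a weak form of the balanced condition -/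
theorem exists_kahler_weak {ι : Type*} [Fintype ι] [DecidableEq ι] (hM : IsModel ρ Ω J)
    (hΩ : ∀ x y, Ω x y = -Ω y x)
    (hJ : LieForms.IsComplexStructure J) {u : Basis ι ℝ L}
    (hb : ∑ i, ⁅u i, J (u i)⁆ = 0) {g₂ : LinearMap.BilinForm ℝ L}
    (h₂ : LieForms.IsHermitianMetric J g₂) (hi : InvBil ρ g₂)
    (hp : LieForms.IsPluriclosed J g₂) :
    ∃ g₃ : LinearMap.BilinForm ℝ L, LieForms.IsHermitianMetric J g₃ ∧ InvBil ρ g₃ ∧
      LieForms.IsKahler J g₃ ∧
      ∃ α ∈ invForms ρ, ∀ x y, LieForms.omega J g₃ x y =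
        LieForms.omega J g₂ x y + (1 / 2) * (α ⁅x, y⁆ + α ⁅J x, J y⁆) := by
  have k₂ : IsHermitianMetric J g₂ := h₂
  have kJ : IsComplexStructure J := hJ
  obtain ⟨α, hα, hH, hI, e, he, hsum⟩ := exists_critical hM kJ hb k₂ hi
  refine ⟨g₂ + sForm J α, hH, hI, ?_, α, hα, ?_⟩
  · intro x
    rw [← ev_three_ceD hH.symInv hJ.1]
    have hK : IsKahler J (g₂ + sForm J α) := by
      apply isKahler_of_cForm hH.symInv hJ.1
      intro x y z
      refine cForm_eq_zero_of_sum hH.symInv hJ.1 he ?_ hsum x y z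
      intro x y z w
      rw [dcForm_add, dcForm_sForm hM hΩ kJ hα, add_zero]
      exact dcForm_of_isPluriclosed k₂.symInv hJ.1 hp x y z w
    rw [hK, ev_zero]
  · intro x y
    unfold LieForms.omega
    rw [LinearMap.add_apply, LinearMap.add_apply, sForm_apply, hJ.1, lie_neg,
      ← lie_skew y x, neg_neg, add_comm (α ⁅J x, J y⁆)]

/-- contraction of a bilinear map with the inverse metric -/
theorem sum_ON_eq {M : Type*} [AddCommGroup M] [Module ℝ M] {ι κ : Type*} [Fintype ι]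
    [DecidableEq ι] [Fintype κ] [DecidableEq κ] {u : Basis ι ℝ L} (hu : IsON g u)
    (b : Basis κ ℝ L) (B : L →ₗ[ℝ] L →ₗ[ℝ] M) :
    ∑ i, B (u i) (u i) =
      ∑ a, ∑ c, (LinearMap.BilinForm.toMatrix b g)⁻¹ a c • B (b a) (b c) := by
  set U : Matrix κ ι ℝ := b.toMatrix u with hU
  set S := LinearMap.BilinForm.toMatrix b g with hS
  have h1 : U * Uᵀ * S = 1 := by
    ext a c
    have h2 : b.repr (b c) a = b.repr (∑ i, g (u i) (b c) • u i) a := by
      rw [hu.sum_smul]
    rw [map_sum, Finsupp.coe_finsetSum, Finset.sum_apply] at h2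
    have h3 : ∀ i, b.repr (g (u i) (b c) • u i) a = U a i * (Uᵀ * S) i c := by
      intro i
      rw [map_smul, Finsupp.smul_apply, smul_eq_mul, mul_comm]
      congr 1
      rw [Matrix.mul_apply]
      conv_lhs => rw [← b.sum_repr (u i)]
      rw [map_sum, LinearMap.sum_apply]
      refine Finset.sum_congr rfl fun d _ => ?_
      rw [map_smul, LinearMap.smul_apply, smul_eq_mul]
      exact congrArg _ (LinearMap.BilinForm.toMatrix_apply b g d c).symm
    simp only [h3] at h2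
    rw [Matrix.mul_assoc, Matrix.mul_apply, ← h2, Basis.repr_self, Finsupp.single_apply,
      Matrix.one_apply]
    simp only [eq_comm]
  have h2 : S⁻¹ = U * Uᵀ := Matrix.inv_eq_left_inv h1
  have h3 : ∀ i, B (u i) (u i) = ∑ a, ∑ c, (U a i * U c i) • B (b a) (b c) := by
    intro i
    have e1 : ∀ y, B (u i) y = ∑ a, b.repr (u i) a • B (b a) y := by
      intro y
      conv_lhs => rw [← b.sum_repr (u i)]
      rw [map_sum, LinearMap.sum_apply]
      refine Finset.sum_congr rfl fun a _ => ?_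
      rw [map_smul, LinearMap.smul_apply]
    have e2 : ∀ y, B y (u i) = ∑ c, b.repr (u i) c • B y (b c) := by
      intro y
      conv_lhs => rw [← b.sum_repr (u i)]
      rw [map_sum]
      refine Finset.sum_congr rfl fun c _ => ?_
      rw [map_smul]
    rw [e1]
    refine Finset.sum_congr rfl fun a _ => ?_
    rw [e2, Finset.smul_sum]
    refine Finset.sum_congr rfl fun c _ => ?_
    rw [smul_smul]
    rfl
  simp only [h3]
  rw [Finset.sum_comm]
  refine Finset.sum_congr rfl fun a _ => ?_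
  rw [Finset.sum_comm]
  refine Finset.sum_congr rfl fun c _ => ?_
  rw [← Finset.sum_smul, h2, Matrix.mul_apply]
  rfl

/-- the pointwise identity behind the balanced condition -/
theorem balanced_identity {ι : Type*} [Fintype ι] [DecidableEq ι] {u : Basis ι ℝ L}
    (hL : IsUnimodular L) (hJ : ∀ x, J (J x) = -x)
    (h : SymInv J g) (hu : IsON g u) {n : ℕ} (hn : finrank ℝ L = 2 * (n + 1)) (α : Dual ℝ L)
    (y : Fin (2 * n + 1 + 1) → L) :
    α (∑ i, ⁅J (u i), u i⁆) * LieForms.wedgePow (LieForms.omega J g) (n + 1) y =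
      (((n : ℝ) + 1) * ((Fintype.card ι : ℝ) - 2 * n)) *
        ∑ j : Fin (2 * n + 1 + 1), (-1) ^ j.val * (α (y j) *
          ev (2 * n + 1) (ceDb (finBasis ℝ L) (fundForm J g ^ n)) fun l => y (j.succAbove l)) := by
  have hcard : Fintype.card ι = finrank ℝ L := (Module.finrank_eq_card_basis u).symm
  set vol : Forms L := fundForm J g ^ (n + 1) with hvoldef
  have hvol : ∀ α : Dual ℝ L, oneForm α * vol = 0 := fun α =>
    oneForm_mul_pow_eq_zero J g α (n + 1) (by omega)
  have h1 := contr_pow h hJ hu n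
  have hlin : ∀ (s : Finset ι) (f : ι → Forms L), ceDb (finBasis ℝ L) (∑ i ∈ s, f i) =
      ∑ i ∈ s, ceDb (finBasis ℝ L) (f i) := by
    intro s f
    simp only [← ceD_eq]
    exact map_sum _ _ _
  have h3 := congrArg (ceDb (finBasis ℝ L)) h1
  rw [hlin, ← ceD_eq (_ • _), map_smul, ceD_eq] at h3
  have h4 : ∀ i, ceDb (finBasis ℝ L) (intProd (J (u i)) (intProd (u i) vol)) =
      intProd ⁅J (u i), u i⁆ vol := fun i => ceDb_contr2 _ hL hvol _ _
  simp only [← hvoldef, h4] at h3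
  rw [← intProd_sum] at h3
  have h7 := congrArg (fun η => ev (2 * n + 1 + 1) η y) (oneForm_mul_intProd hvol α
    (∑ i, ⁅J (u i), u i⁆))
  simp only [ev_smul] at h7
  have h8 : ev (2 * n + 1 + 1) vol y = LieForms.wedgePow (LieForms.omega J g) (n + 1) y :=
    ev_pow h hJ (n + 1) y
  rw [← h8, ← h7, h3, ev_oneForm_mul, Finset.mul_sum]
  refine Finset.sum_congr rfl fun j _ => ?_
  rw [ev_smul]
  ring

/-- the top degree forms are proportional -/
theorem exists_smul_top {J : L →ₗ[ℝ] L} {g g' : LinearMap.BilinForm ℝ L} {m : ℕ}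
    (hm : finrank ℝ L = 2 * m) (h0 : fundForm J g ^ m ≠ 0) :
    ∃ c : ℝ, fundForm J g' ^ m = c • fundForm J g ^ m := by
  have h1 : ∀ β : Dual ℝ L, oneForm β ∈ ⋀[ℝ]^1 (Dual ℝ L) := by
    intro β
    change _ ∈ (LinearMap.range (ExteriorAlgebra.ι ℝ : Dual ℝ L →ₗ[ℝ] _)) ^ 1
    rw [pow_one]
    exact ⟨β, rfl⟩
  have h2 : ∀ g : LinearMap.BilinForm ℝ L, fundForm J g ∈ ⋀[ℝ]^2 (Dual ℝ L) := by
    intro g
    unfold fundForm
    refine Submodule.smul_mem _ _ (Submodule.sum_mem _ fun i _ => ?_)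
    exact SetLike.mul_mem_graded (h1 _) (h1 _)
  have h3 : ∀ g : LinearMap.BilinForm ℝ L, fundForm J g ^ m ∈ ⋀[ℝ]^(m • 2) (Dual ℝ L) :=
    fun g => SetLike.pow_mem_graded m (h2 g)
  have h4 : finrank ℝ (⋀[ℝ]^(m • 2) (Dual ℝ L)) = 1 := by
    rw [exteriorPower.finrank_eq, Subspace.dual_finrank_eq, hm, smul_eq_mul, mul_comm,
      Nat.choose_self]
  have h5 := (finrank_eq_one_iff_of_nonzero' (⟨_, h3 g⟩ : ⋀[ℝ]^(m • 2) (Dual ℝ L))
    (fun h => h0 (congrArg Subtype.val h))).mp h4 ⟨_, h3 g'⟩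
  obtain ⟨c, hc⟩ := h5
  exact ⟨c, (congrArg Subtype.val hc).symm⟩

end Pool.Agent.Helper8.KV
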